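import Mathlib

set_option autoImplicit false

namespace Pool.Agent.Work.MP_b103ef_al_h93

/-- The congruences of a lattice, in the form used by the frozen statement. -/
abbrev LCon (L : Type*) [Lattice L] : Type _ :=
  {r : L → L → Prop // Equivalence r ∧
    ∀ a b c d : L, r a b → r c d → r (a ⊔ c) (b ⊔ d) ∧ r (a ⊓ c) (b ⊓ d)}

namespace LCon

variable {L : Type*} [Lattice L]

theorem refl (r : LCon L) (a : L) : r.1 a a := r.2.1.refl a
theorem symm (r : LCon L) {a b : L} (h : r.1 a b) : r.1 b a := r.2.1.symm h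
theorem trans (r : LCon L) {a b c : L} (h : r.1 a b) (h' : r.1 b c) : r.1 a c := r.2.1.trans h h'
theorem sup (r : LCon L) {a b c d : L} (h : r.1 a b) (h' : r.1 c d) : r.1 (a ⊔ c) (b ⊔ d) :=
  (r.2.2 a b c d h h').1
theorem inf (r : LCon L) {a b c d : L} (h : r.1 a b) (h' : r.1 c d) : r.1 (a ⊓ c) (b ⊓ d) :=
  (r.2.2 a b c d h h').2
theorem sup_left (r : LCon L) {a b : L} (c : L) (h : r.1 a b) : r.1 (c ⊔ a) (c ⊔ b) :=
  r.sup (r.refl c) h
theorem sup_right (r : LCon L) {a b : L} (c : L) (h : r.1 a b) : r.1 (a ⊔ c) (b ⊔ c) :=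
  r.sup h (r.refl c)
theorem inf_left (r : LCon L) {a b : L} (c : L) (h : r.1 a b) : r.1 (c ⊓ a) (c ⊓ b) :=
  r.inf (r.refl c) h
theorem inf_right (r : LCon L) {a b : L} (c : L) (h : r.1 a b) : r.1 (a ⊓ c) (b ⊓ c) :=
  r.inf h (r.refl c)

theorem le_iff (r s : LCon L) : r ≤ s ↔ ∀ a b, r.1 a b → s.1 a b := Iff.rfl

/-- If `u ≤ x ≤ v` and `u` is congruent to `v`, then `u` is congruent to `x`. -/
theorem bot_mid (r : LCon L) {u v x : L} (h : r.1 u v) (hx : u ≤ x) (hx' : x ≤ v) : r.1 u x := by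
  have := r.inf_right x h
  rwa [inf_eq_left.2 hx, inf_eq_right.2 hx'] at this

theorem mid_top (r : LCon L) {u v x : L} (h : r.1 u v) (hx : u ≤ x) (hx' : x ≤ v) : r.1 x v :=
  r.trans (r.symm (r.bot_mid h hx hx')) h

theorem mid_mid (r : LCon L) {u v x y : L} (h : r.1 u v) (hx : u ≤ x) (hx' : x ≤ v)
    (hy : u ≤ y) (hy' : y ≤ v) : r.1 x y :=
  r.trans (r.symm (r.bot_mid h hx hx')) (r.bot_mid h hy hy')

/-- The least congruence containing a set of pairs. -/
def gen (E : Set (L × L)) : LCon L :=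
  ⟨fun a b => ∀ r : LCon L, (∀ p ∈ E, r.1 p.1 p.2) → r.1 a b,
    ⟨fun a r _ => r.refl a, fun h r hr => r.symm (h r hr),
      fun h h' r hr => r.trans (h r hr) (h' r hr)⟩,
    fun _ _ _ _ h h' => ⟨fun r hr => r.sup (h r hr) (h' r hr),
      fun r hr => r.inf (h r hr) (h' r hr)⟩⟩

theorem gen_le {E : Set (L × L)} {r : LCon L} : gen E ≤ r ↔ ∀ p ∈ E, r.1 p.1 p.2 := by
  constructor
  · intro h p hp
    exact h p.1 p.2 (fun r hr => hr p hp)
  · intro h a b hab
    exact hab r h

theorem gen_mem {E : Set (L × L)} {p : L × L} (hp : p ∈ E) : (gen E).1 p.1 p.2 :=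
  fun _ hr => hr p hp

theorem gen_mono {E E' : Set (L × L)} (h : E ⊆ E') : gen E ≤ gen E' :=
  gen_le.2 (fun _ hp => gen_mem (h hp))

/-- The full congruence. -/
def full (L : Type*) [Lattice L] : LCon L :=
  ⟨fun _ _ => True, ⟨fun _ => trivial, fun _ => trivial, fun _ _ => trivial⟩,
    fun _ _ _ _ _ _ => ⟨trivial, trivial⟩⟩

theorem le_full (r : LCon L) : r ≤ full L := fun _ _ _ => trivial

theorem eq_full_iff (r : LCon L) : r = full L ↔ ∀ a b, r.1 a b := by
  constructor
  · intro h a b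
    rw [h]; trivial
  · intro h
    exact le_antisymm (le_full r) (fun a b _ => h a b)

variable {K : Type*} [Lattice K]

theorem map_full (φ : LCon L ≃o LCon K) : φ (full L) = full K := by
  apply le_antisymm (le_full _)
  have := φ.monotone (le_full (φ.symm (full K)))
  simpa using this

/-- Compactness: membership of one pair of `K` in the image of a congruence `ψ` of `L` is decided by
finitely many pairs of `L`. -/
theorem exists_finset (φ : LCon L ≃o LCon K) (s t : K) :
    ∃ E : Finset (L × L), ∀ ψ : LCon L, (φ ψ).1 s t ↔ ∀ p ∈ E, ψ.1 p.1 p.2 := by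
  classical
  set ζ : LCon L := φ.symm (gen {(s, t)}) with hζ
  let η : LCon K :=
    ⟨fun x y => ∃ E : Finset (L × L), (∀ p ∈ E, ζ.1 p.1 p.2) ∧ (φ (gen (E : Set (L × L)))).1 x y,
      ⟨fun x => ⟨∅, by simp, (φ _).refl x⟩,
        fun ⟨E, h1, h2⟩ => ⟨E, h1, (φ _).symm h2⟩,
        fun ⟨E, h1, h2⟩ ⟨E', h1', h2'⟩ => by
          refine ⟨E ∪ E', ?_, ?_⟩
          · intro p hp
            rcases Finset.mem_union.1 hp with h | h
            · exact h1 p h
            · exact h1' p h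
          · refine (φ _).trans (φ.monotone (gen_mono ?_) _ _ h2) (φ.monotone (gen_mono ?_) _ _ h2')
            · intro p hp; simpa using Or.inl hp
            · intro p hp; simpa using Or.inr hp⟩,
      fun a b c d ⟨E, h1, h2⟩ ⟨E', h1', h2'⟩ => by
          have hE : ∀ p ∈ E ∪ E', ζ.1 p.1 p.2 := by
            intro p hp
            rcases Finset.mem_union.1 hp with h | h
            · exact h1 p h
            · exact h1' p h
          have g1 := φ.monotone (gen_mono (E := (E : Set (L × L))) (E' := ((E ∪ E' : Finset (L × L)) : Set (L × L)))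
            (by intro p hp; simpa using Or.inl hp)) _ _ h2
          have g2 := φ.monotone (gen_mono (E := (E' : Set (L × L))) (E' := ((E ∪ E' : Finset (L × L)) : Set (L × L)))
            (by intro p hp; simpa using Or.inr hp)) _ _ h2'
          exact ⟨⟨E ∪ E', hE, (φ _).sup g1 g2⟩, ⟨E ∪ E', hE, (φ _).inf g1 g2⟩⟩⟩
  have hζη : ζ ≤ φ.symm η := by
    intro l l' hl
    have h1 : φ (gen (({(l, l')} : Finset (L × L)) : Set (L × L))) ≤ η := by
      intro x y hxy
      exact ⟨{(l, l')}, by simpa using hl, hxy⟩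
    have h2 : gen (({(l, l')} : Finset (L × L)) : Set (L × L)) ≤ φ.symm η :=
      (φ.le_symm_apply).2 h1
    exact h2 l l' (gen_mem (p := (l, l')) (by simp))
  have hη : gen {(s, t)} ≤ η := by
    have := (φ.le_symm_apply).1 hζη
    rw [hζ, φ.apply_symm_apply] at this
    exact this
  obtain ⟨E, hE1, hE2⟩ := gen_le.1 hη (s, t) rfl
  refine ⟨E, fun ψ => ⟨fun h => ?_, fun h => ?_⟩⟩
  · have h1 : gen {(s, t)} ≤ φ ψ := gen_le.2 (by
      intro p hp
      rw [Set.mem_singleton_iff] at hp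
      subst hp
      exact h)
    have h2 : ζ ≤ ψ := by
      rw [hζ]; exact (φ.symm_apply_le).2 h1
    intro p hp
    exact h2 _ _ (hE1 p hp)
  · have h1 : gen (E : Set (L × L)) ≤ ψ := gen_le.2 (fun p hp => h p (by simpa using hp))
    exact φ.monotone h1 _ _ hE2

end LCon

/-- The pentagon `o < a < b < i`, `o < c < i`. -/
inductive N5 : Type
  | o | a | b | c | i
  deriving DecidableEq

namespace N5

instance : Fintype N5 := ⟨{o, a, b, c, i}, by intro x; cases x <;> simp⟩

/-- Join in the pentagon. -/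
def join : N5 → N5 → N5
  | o, y => y
  | x, o => x
  | i, _ => i
  | _, i => i
  | a, a => a
  | a, b => b
  | b, a => b
  | b, b => b
  | c, c => c
  | a, c => i
  | c, a => i
  | b, c => i
  | c, b => i

/-- Meet in the pentagon. -/
def meet : N5 → N5 → N5
  | i, y => y
  | x, i => x
  | o, _ => o
  | _, o => o
  | a, a => a
  | a, b => a
  | b, a => a
  | b, b => b
  | c, c => c
  | a, c => o
  | c, a => o
  | b, c => o
  | c, b => o

instance : Max N5 := ⟨join⟩
instance : Min N5 := ⟨meet⟩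

instance instLattice : Lattice N5 :=
  Lattice.mk' (by decide) (by decide) (by decide) (by decide) (by decide) (by decide)

/-- Quotient of the pentagon by `con(o, c)`: `a, b, i ↦ i` and `o, c ↦ o`. -/
def pi : N5 → N5
  | o => o | a => i | b => i | c => o | i => i
/-- Quotient of the pentagon by `con(o, b)`: `c, i ↦ i` and `o, a, b ↦ o`. -/
def rho : N5 → N5
  | o => o | a => o | b => o | c => i | i => i
/-- `b, i ↦ i` and `o, a, c ↦ o`; a homomorphism on `{o, a, b, i}`. -/
def tau : N5 → N5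
  | o => o | a => o | b => i | c => o | i => i

theorem pi_sup : ∀ x y : N5, pi (x ⊔ y) = pi x ⊔ pi y := by decide
theorem pi_inf : ∀ x y : N5, pi (x ⊓ y) = pi x ⊓ pi y := by decide
theorem rho_sup : ∀ x y : N5, rho (x ⊔ y) = rho x ⊔ rho y := by decide
theorem rho_inf : ∀ x y : N5, rho (x ⊓ y) = rho x ⊓ rho y := by decide
theorem tau_sup : ∀ x y : N5, x ≠ c → y ≠ c → tau (x ⊔ y) = tau x ⊔ tau y := by decide
theorem tau_inf : ∀ x y : N5, x ≠ c → y ≠ c → tau (x ⊓ y) = tau x ⊓ tau y := by decide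
theorem nc_sup : ∀ x y : N5, x ≠ c → y ≠ c → x ⊔ y ≠ c := by decide
theorem nc_inf : ∀ x y : N5, x ≠ c → y ≠ c → x ⊓ y ≠ c := by decide
theorem nb_sup : ∀ x y : N5, x ≠ b → y ≠ b → x ⊔ y ≠ b := by decide
theorem nb_inf : ∀ x y : N5, x ≠ b → y ≠ b → x ⊓ y ≠ b := by decide
theorem na_sup : ∀ x y : N5, x ≠ a → y ≠ a → x ⊔ y ≠ a := by decide
theorem na_inf : ∀ x y : N5, x ≠ a → y ≠ a → x ⊓ y ≠ a := by decide
theorem sep_b : ∀ x y : N5, x ≠ b → y ≠ b → pi x = pi y → rho x = rho y → x = y := by decide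
theorem sep_a : ∀ x y : N5, x ≠ a → y ≠ a → pi x = pi y → rho x = rho y → x = y := by decide
theorem sep_c : ∀ x y : N5, x ≠ c → y ≠ c → pi x = pi y → tau x = tau y → rho x = rho y → x = y := by
  decide
theorem oi_sup : ∀ x y : N5, (x = o ∨ x = i) → (y = o ∨ y = i) → (x ⊔ y = o ∨ x ⊔ y = i) := by decide
theorem oi_inf : ∀ x y : N5, (x = o ∨ x = i) → (y = o ∨ y = i) → (x ⊓ y = o ∨ x ⊓ y = i) := by decide

theorem card_eq : Nat.card N5 = 5 := by
  rw [Nat.card_eq_fintype_card]; rfl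

theorem not_modular : ¬ IsModularLattice N5 := by
  intro h
  have hab : (a : N5) ≤ b := by
    rw [← sup_eq_right]; rfl
  have h1 : (a ⊔ c) ⊓ b ≤ a ⊔ c ⊓ b := h.sup_inf_le_assoc_of_le c (x := a) (z := b) hab
  rw [← sup_eq_right] at h1
  revert h1
  decide

end N5

end Pool.Agent.Work.MP_b103ef_al_h93
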