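import Pool.Agent.Work.MP_b103ef_al_helper93.Length

set_option autoImplicit false

namespace Pool.Agent.Work.MP_b103ef_al_h93

open LCon Cardinal

section

variable {X K : Type} [Lattice K] (φ : LCon (FL X) ≃o LCon K)

/-- two-valued assignments -/
def bv (ε : X → Bool) : X → N5 := fun x => val (ε x)

theorem Th_max (ε : X → Bool) (η : LCon K) (h : Th φ (bv ε) ≤ η) :
    η = Th φ (bv ε) ∨ ∀ s t, η.1 s t := by
  classical
  have h1 : kerE (bv ε) ≤ φ.symm η := (φ.le_symm_apply).2 h
  by_cases h2 : φ.symm η ≤ kerE (bv ε)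
  · left
    have h3 : φ.symm η = kerE (bv ε) := le_antisymm h2 h1
    rw [Th, ← h3, φ.apply_symm_apply]
  · right
    rw [le_iff] at h2
    push Not at h2
    obtain ⟨l, l', hl, hne⟩ := h2
    have hoi : ∀ m : FL X, m.1 (bv ε) = N5.o ∨ m.1 (bv ε) = N5.i := by
      intro m
      refine Poly.oi m.2 _ (fun x => ?_)
      unfold bv
      cases ε x
      · exact Or.inl rfl
      · exact Or.inr rfl
    have hbt : (φ.symm η).1 (fbot X) (ftop X) := by
      rcases hoi l with h3 | h3 <;> rcases hoi l' with h4 | h4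
      · exact absurd (h3.trans h4.symm) hne
      · have e1 : (kerE (bv ε)).1 (fbot X) l := h3.symm
        have e2 : (kerE (bv ε)).1 l' (ftop X) := h4
        exact (φ.symm η).trans (h1 _ _ e1) ((φ.symm η).trans hl (h1 _ _ e2))
      · have e1 : (kerE (bv ε)).1 (fbot X) l' := h4.symm
        have e2 : (kerE (bv ε)).1 l (ftop X) := h3
        exact (φ.symm η).trans (h1 _ _ e1) ((φ.symm η).trans ((φ.symm η).symm hl) (h1 _ _ e2))
      · exact absurd (h3.trans h4.symm) hne
    have h5 : φ.symm η = LCon.full (FL X) := by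
      rw [LCon.eq_full_iff]
      intro m m'
      exact (φ.symm η).mid_mid hbt (fbot_le m) (le_ftop m) (fbot_le m') (le_ftop m')
    have h6 : η = LCon.full K := by
      rw [← LCon.map_full φ, ← h5, φ.apply_symm_apply]
    rw [h6]
    intro s t; trivial

/-- Baire category: if all lengths are finite then they are bounded on a basic open set. -/
theorem exists_bound {u v : K} (h : ∀ ε : X → Bool, ∃ N, BD (Th φ (bv ε)) u v N) :
    ∃ (F : Finset X) (ε0 : X → Bool) (m : ℕ), ∀ ε : X → Bool, (∀ x ∈ F, ε x = ε0 x) →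
      BD (Th φ (bv ε)) u v m := by
  classical
  let C : ℕ → Set (X → Bool) := fun m => {ε | BD (Th φ (bv ε)) u v m}
  have hclosed : ∀ m, IsClosed (C m) := by
    intro m
    rw [← isOpen_compl_iff, isOpen_iff_forall_mem_open]
    intro ε hε
    change ¬ BD (Th φ (bv ε)) u v m at hε
    unfold BD at hε
    push Not at hε
    obtain ⟨f, n, h1, h2, h3⟩ := hε
    let F : Finset X := (Finset.range n).biUnion (fun i => supp φ (f i) (f (i + 1)))
    refine ⟨(F : Set X).pi (fun x => {ε x}), ?_,
      isOpen_set_pi F.finite_toSet (fun _ _ => isOpen_discrete _), ?_⟩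
    · intro ε' hε' hC
      have hC' : BD (Th φ (bv ε')) u v m := hC
      have h4 := hC' f n h1 h2
      have h5 : cnt (Th φ (bv ε)) f n ≤ cnt (Th φ (bv ε')) f n := by
        unfold cnt
        apply Finset.card_le_card
        intro i hi
        simp only [Finset.mem_filter, Finset.mem_range] at hi ⊢
        refine ⟨hi.1, fun hψ => hi.2 (supp_loc (fun x hx => ?_) hψ)⟩
        have hxF : x ∈ F := Finset.mem_biUnion.2 ⟨i, Finset.mem_range.2 hi.1, hx⟩
        have := hε' x (by exact_mod_cast hxF)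
        rw [Set.mem_singleton_iff] at this
        unfold bv
        rw [this]
      omega
    · intro x _
      exact Set.mem_singleton _
  have hcover : ⋃ m, C m = Set.univ := by
    rw [Set.eq_univ_iff_forall]
    intro ε
    obtain ⟨N, hN⟩ := h ε
    exact Set.mem_iUnion.2 ⟨N, hN⟩
  obtain ⟨m, ε0, hε0⟩ := nonempty_interior_of_iUnion_of_closed hclosed hcover
  have hopen := isOpen_pi_iff.1 (isOpen_interior (s := C m)) ε0 hε0
  obtain ⟨F, w, hw, hsub⟩ := hopen
  refine ⟨F, ε0, m, fun ε hε => ?_⟩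
  have : ε ∈ C m := by
    apply interior_subset
    apply hsub
    intro x hx
    rw [hε x (by exact_mod_cast hx)]
    exact (hw x (by exact_mod_cast hx)).2
  exact this

/-- A one-sided element for a generator. -/
theorem exists_w {u v : K} (huv' : u ≤ v) (huv : ∀ ψ : LCon K, ψ.1 u v → ∀ s t, ψ.1 s t)
    (x : X) (upd : Bool → X → Bool) (hupd : ∀ κ, upd κ x = κ) :
    ∃ (κ : Bool) (w : K), u ≤ w ∧ w ≤ v ∧ (Th φ (bv (upd κ))).1 u w ∧
      ¬ (Th φ (bv (upd (!κ)))).1 u w := by
  classical
  obtain ⟨n, y, ty, hy0, hyn, hmono, hst⟩ := exists_chain φ x huv'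
  have hex : ∃ j, ¬ ((Th φ (bv (upd true))).1 u (y j) ∧ (Th φ (bv (upd false))).1 u (y j)) := by
    refine ⟨n, fun h => ?_⟩
    rw [hyn] at h
    exact not_Th_of φ huv _ h.1
  let j := Nat.find hex
  have hj : ¬ ((Th φ (bv (upd true))).1 u (y j) ∧ (Th φ (bv (upd false))).1 u (y j)) := Nat.find_spec hex
  have hj0 : j ≠ 0 := by
    intro h0
    rw [h0, hy0] at hj
    exact hj ⟨LCon.refl _ _, LCon.refl _ _⟩
  obtain ⟨i, hi⟩ := Nat.exists_eq_succ_of_ne_zero hj0
  have hlt : i < j := by omega
  have hi' := not_not.1 (Nat.find_min hex hlt)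
  have hjn : j ≤ n := by
    apply Nat.find_min' hex
    intro h
    rw [hyn] at h
    exact not_Th_of φ huv _ h.1
  have hin : i < n := by omega
  have hji : y j = y (i + 1) := by rw [hi]
  have hkey : (Th φ (bv (upd (ty i)))).1 u (y j) := by
    have h1 : (Th φ (bv (upd (ty i)))).1 u (y i) := by
      cases ty i
      · exact hi'.2
      · exact hi'.1
    refine (Th φ _).trans h1 ?_
    rw [hji]
    exact Pc_le φ x (ty i) _ (by unfold bv; rw [hupd]) _ _ (hst i hin)
  refine ⟨ty i, y j, ?_, ?_, hkey, ?_⟩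
  · rw [← hy0]; exact hmono (Nat.zero_le _)
  · rw [← hyn]; exact hmono hjn
  · intro hcon
    apply hj
    cases hty : ty i
    · rw [hty] at hkey hcon
      exact ⟨hcon, hkey⟩
    · rw [hty] at hkey hcon
      exact ⟨hkey, hcon⟩

end

section joins

variable {X K : Type} [Lattice K]

/-- The join of `u` and the `w x`, `x ∈ A`. -/
noncomputable def TT (u : K) (w : X → K) (A : Finset X) : K := A.fold (· ⊔ ·) u w

theorem TT_le {u : K} {w : X → K} {A : Finset X} {z : K} :
    TT u w A ≤ z ↔ u ≤ z ∧ ∀ x ∈ A, w x ≤ z := by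
  classical
  unfold TT
  induction A using Finset.induction_on with
  | empty => simp
  | insert a s ha ih =>
    rw [Finset.fold_insert ha]
    rw [sup_le_iff, ih]
    simp only [Finset.mem_insert, forall_eq_or_imp]
    tauto

theorem le_TT {u : K} {w : X → K} {A : Finset X} : u ≤ TT u w A := (TT_le.1 (le_refl _)).1

theorem w_le_TT {u : K} {w : X → K} {A : Finset X} {x : X} (hx : x ∈ A) : w x ≤ TT u w A :=
  (TT_le.1 (le_refl _)).2 x hx

theorem TT_mono {u : K} {w : X → K} {A B : Finset X} (h : A ⊆ B) : TT u w A ≤ TT u w B :=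
  TT_le.2 ⟨le_TT, fun _ hx => w_le_TT (h hx)⟩

theorem TT_rel {u : K} {w : X → K} {A : Finset X} (ψ : LCon K) (h : ∀ x ∈ A, ψ.1 u (w x)) :
    ψ.1 u (TT u w A) := by
  classical
  unfold TT
  induction A using Finset.induction_on with
  | empty => exact ψ.refl u
  | insert a s ha ih =>
    rw [Finset.fold_insert ha]
    have h1 := ψ.sup (h a (Finset.mem_insert_self _ _))
      (ih (fun x hx => h x (Finset.mem_insert_of_mem hx)))
    rwa [sup_idem] at h1

theorem exists_blocks (ψ : LCon K) (u : K) (w : X → K) (m : ℕ) : ∀ Y : Finset X,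
    4 ^ (m + 1) ≤ Y.card → BD ψ u (TT u w Y) m →
    ∃ A B C D : Finset X, A ⊆ Y ∧ B ⊆ Y ∧ C ⊆ Y ∧ D ⊆ Y ∧ A.Nonempty ∧ B.Nonempty ∧ C.Nonempty ∧
      D.Nonempty ∧ Disjoint A B ∧ Disjoint A C ∧ Disjoint A D ∧ Disjoint B C ∧ Disjoint B D ∧
      Disjoint C D ∧ ψ.1 (TT u w A) (TT u w D) ∧ ψ.1 (TT u w B) (TT u w D) ∧
      ψ.1 (TT u w C) (TT u w D) := by
  classical
  induction m with
  | zero =>
    intro Y hY hBD
    obtain ⟨Z, hZ, hZc⟩ := Finset.exists_subset_card_eq hY
    have hall : ∀ A ⊆ Y, ψ.1 u (TT u w A) := by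
      intro A hA
      by_contra hcon
      have h1 := hBD (fun i => if i = 0 then u else TT u w A) 1
        (by intro i hi; have : i = 0 := by omega
            subst this; simp [le_TT])
        (by
          intro i hi
          by_cases h0 : i = 0
          · subst h0; simp [le_TT]
          · simp only [h0, if_false]; exact ⟨le_TT, TT_mono hA⟩)
      have h2 : cnt ψ (fun i => if i = 0 then u else TT u w A) 1 = 1 := by
        unfold cnt
        rw [Finset.card_eq_one]
        refine ⟨0, ?_⟩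
        ext i
        simp only [Finset.mem_filter, Finset.mem_range, Finset.mem_singleton]
        constructor
        · rintro ⟨h3, _⟩; omega
        · rintro rfl
          exact ⟨by omega, by simpa using hcon⟩
      omega
    have hc4 : Z.card = 4 := by simpa using hZc
    obtain ⟨x1, x2, x3, x4, h12, h13, h14, h23, h24, h34, rfl⟩ := Finset.card_eq_four.1 hc4
    have hs : ∀ x, x ∈ ({x1, x2, x3, x4} : Finset X) → ({x} : Finset X) ⊆ Y := by
      intro x hx
      rw [Finset.singleton_subset_iff]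
      exact hZ hx
    have r : ∀ x y, x ∈ ({x1, x2, x3, x4} : Finset X) → y ∈ ({x1, x2, x3, x4} : Finset X) →
        ψ.1 (TT u w {x}) (TT u w {y}) := fun x y hx hy =>
      ψ.trans (ψ.symm (hall _ (hs x hx))) (hall _ (hs y hy))
    refine ⟨{x1}, {x2}, {x3}, {x4}, hs _ (by simp), hs _ (by simp), hs _ (by simp), hs _ (by simp),
      by simp, by simp, by simp, by simp, ?_, ?_, ?_, ?_, ?_, ?_, r _ _ (by simp) (by simp),
      r _ _ (by simp) (by simp), r _ _ (by simp) (by simp)⟩ <;>
    simp only [Finset.disjoint_singleton] <;> assumption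
  | succ m ih =>
    intro Y hY hBD
    have hsplit : ∃ A B C D : Finset X, A ⊆ Y ∧ B ⊆ Y ∧ C ⊆ Y ∧ D ⊆ Y ∧
        A.card = 4 ^ (m + 1) ∧ B.card = 4 ^ (m + 1) ∧ C.card = 4 ^ (m + 1) ∧ D.card = 4 ^ (m + 1) ∧
        Disjoint A B ∧ Disjoint A C ∧ Disjoint A D ∧ Disjoint B C ∧ Disjoint B D ∧ Disjoint C D := by
      have hp : 4 ^ (m + 1 + 1) = 4 * 4 ^ (m + 1) := by ring
      rw [hp] at hY
      obtain ⟨A, hA, hAc⟩ := Finset.exists_subset_card_eq (show 4 ^ (m + 1) ≤ Y.card by omega)
      have c1 : (Y \ A).card = Y.card - 4 ^ (m + 1) := by rw [Finset.card_sdiff_of_subset hA, hAc]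
      obtain ⟨B, hB, hBc⟩ := Finset.exists_subset_card_eq (show 4 ^ (m + 1) ≤ (Y \ A).card by omega)
      have c2 : ((Y \ A) \ B).card = (Y \ A).card - 4 ^ (m + 1) := by
        rw [Finset.card_sdiff_of_subset hB, hBc]
      obtain ⟨C, hC, hCc⟩ := Finset.exists_subset_card_eq (show 4 ^ (m + 1) ≤ ((Y \ A) \ B).card by omega)
      have c3 : (((Y \ A) \ B) \ C).card = ((Y \ A) \ B).card - 4 ^ (m + 1) := by
        rw [Finset.card_sdiff_of_subset hC, hCc]
      obtain ⟨D, hD, hDc⟩ :=
        Finset.exists_subset_card_eq (show 4 ^ (m + 1) ≤ (((Y \ A) \ B) \ C).card by omega)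
      have s1 : Y \ A ⊆ Y := Finset.sdiff_subset
      have s2 : (Y \ A) \ B ⊆ Y \ A := Finset.sdiff_subset
      have s3 : ((Y \ A) \ B) \ C ⊆ (Y \ A) \ B := Finset.sdiff_subset
      have dA : ∀ Z ⊆ Y \ A, Disjoint A Z := fun Z hZ =>
        (Finset.disjoint_sdiff).mono_right hZ
      have dB : ∀ Z ⊆ (Y \ A) \ B, Disjoint B Z := fun Z hZ =>
        (Finset.disjoint_sdiff).mono_right hZ
      have dC : ∀ Z ⊆ ((Y \ A) \ B) \ C, Disjoint C Z := fun Z hZ =>
        (Finset.disjoint_sdiff).mono_right hZ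
      exact ⟨A, B, C, D, hA, hB.trans s1, (hC.trans s2).trans s1, ((hD.trans s3).trans s2).trans s1,
        hAc, hBc, hCc, hDc, dA _ hB, dA _ (hC.trans s2), dA _ ((hD.trans s3).trans s2),
        dB _ hC, dB _ (hD.trans s3), dC _ hD⟩
    obtain ⟨A, B, C, D, hA, hB, hC, hD, cA, cB, cC, cD, d1, d2, d3, d4, d5, d6⟩ := hsplit
    have hred : ∀ Z ⊆ Y, Z.card = 4 ^ (m + 1) → ¬ ψ.1 (TT u w Z) (TT u w Y) →
        ∃ A B C D : Finset X, A ⊆ Y ∧ B ⊆ Y ∧ C ⊆ Y ∧ D ⊆ Y ∧ A.Nonempty ∧ B.Nonempty ∧
        C.Nonempty ∧ D.Nonempty ∧ Disjoint A B ∧ Disjoint A C ∧ Disjoint A D ∧ Disjoint B C ∧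
        Disjoint B D ∧ Disjoint C D ∧ ψ.1 (TT u w A) (TT u w D) ∧ ψ.1 (TT u w B) (TT u w D) ∧
        ψ.1 (TT u w C) (TT u w D) := by
      intro Z hZ hZc hn
      have hb : BD ψ u (TT u w Z) m := by
        intro f n h1 h2
        have h3 := hBD (fun i => if i ≤ n then f i else TT u w Y) (n + 1)
          (by
            intro i hi
            by_cases h4 : i + 1 ≤ n
            · simp only [(by omega : i ≤ n), h4, if_true]
              exact h1 i (by omega)
            · have h5 : i = n := by omega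
              subst h5
              simp only [le_refl, if_true, h4, if_false]
              exact (h2 i (le_refl _)).2.trans (TT_mono hZ))
          (by
            intro i hi
            by_cases h4 : i ≤ n
            · simp only [h4, if_true]
              exact ⟨(h2 i h4).1, (h2 i h4).2.trans (TT_mono hZ)⟩
            · simp only [h4, if_false]
              exact ⟨le_TT, le_refl _⟩)
        have h4 : cnt ψ f n + 1 ≤ cnt ψ (fun i => if i ≤ n then f i else TT u w Y) (n + 1) := by
          unfold cnt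
          have hins : insert n ((Finset.range n).filter (fun i => ¬ ψ.1 (f i) (f (i + 1)))) ⊆
              (Finset.range (n + 1)).filter (fun i => ¬ ψ.1 (if i ≤ n then f i else TT u w Y)
                (if i + 1 ≤ n then f (i + 1) else TT u w Y)) := by
            intro i hi
            rw [Finset.mem_insert] at hi
            rcases hi with rfl | hi
            · simp only [Finset.mem_filter, Finset.mem_range]
              refine ⟨by omega, ?_⟩
              rw [if_pos (le_refl i), if_neg (by omega : ¬ (i + 1 ≤ i))]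
              intro hcon
              exact hn (ψ.mid_top hcon (h2 i (le_refl _)).2 (TT_mono hZ))
            · simp only [Finset.mem_filter, Finset.mem_range] at hi ⊢
              refine ⟨by omega, ?_⟩
              simp only [(by omega : i ≤ n), (by omega : i + 1 ≤ n), if_true]
              exact hi.2
          have := Finset.card_le_card hins
          rw [Finset.card_insert_of_notMem (by simp)] at this
          exact this
        omega
      obtain ⟨A, B, C, D, e1, e2, e3, e4, rest⟩ := ih Z (by rw [hZc]) hb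
      exact ⟨A, B, C, D, e1.trans hZ, e2.trans hZ, e3.trans hZ, e4.trans hZ, rest⟩
    by_cases tA : ψ.1 (TT u w A) (TT u w Y)
    · by_cases tB : ψ.1 (TT u w B) (TT u w Y)
      · by_cases tC : ψ.1 (TT u w C) (TT u w Y)
        · by_cases tD : ψ.1 (TT u w D) (TT u w Y)
          · have ne : ∀ Z : Finset X, Z.card = 4 ^ (m + 1) → Z.Nonempty := by
              intro Z hZ
              rw [← Finset.card_pos, hZ]
              positivity
            exact ⟨A, B, C, D, hA, hB, hC, hD, ne _ cA, ne _ cB, ne _ cC, ne _ cD, d1, d2, d3, d4,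
              d5, d6, ψ.trans tA (ψ.symm tD), ψ.trans tB (ψ.symm tD), ψ.trans tC (ψ.symm tD)⟩
          · exact hred D hD cD tD
        · exact hred C hC cC tC
      · exact hred B hB cB tB
    · exact hred A hA cA tA

theorem final_step [IsModularLattice K] {T P R W : LCon K} {u za zb zc zd : K}
    (ha : u ≤ za) (hb : u ≤ zb) (hc : u ≤ zc)
    (P1 : P.1 za zd) (P2 : P.1 zb zd) (P3 : P.1 u zc)
    (R1 : R.1 u za) (R2 : R.1 u zb) (R3 : R.1 zc zd) (W1 : W.1 u za)
    (L1 : P.1 (za ⊓ zc) u → R.1 (za ⊓ zc) u → T.1 (za ⊓ zc) u)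
    (L2 : P.1 (za ⊔ zc) zd → R.1 (za ⊔ zc) zd → T.1 (za ⊔ zc) zd)
    (L3 : P.1 (zb ⊓ zc) u → R.1 (zb ⊓ zc) u → T.1 (zb ⊓ zc) u)
    (L4 : P.1 (zb ⊔ zc) zd → R.1 (zb ⊔ zc) zd → T.1 (zb ⊔ zc) zd)
    (L5 : P.1 (za ⊔ zb) zb → W.1 (za ⊔ zb) zb → R.1 (za ⊔ zb) zb → T.1 (za ⊔ zb) zb)
    (L6 : T.1 za zb → W.1 za zb) : W.1 u zb := by
  have t1 : T.1 (za ⊓ zc) u := by
    apply L1
    · have := P.inf_left za (P.symm P3)
      rwa [inf_eq_right.2 ha] at this
    · have := R.inf_right zc (R.symm R1)
      rwa [inf_eq_left.2 hc] at this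
  have t2 : T.1 (za ⊔ zc) zd := by
    apply L2
    · have := P.sup_left za (P.symm P3)
      rw [sup_eq_left.2 ha] at this
      exact P.trans this P1
    · have := R.sup_right zc (R.symm R1)
      rw [sup_eq_right.2 hc] at this
      exact R.trans this R3
  have t3 : T.1 (zb ⊓ zc) u := by
    apply L3
    · have := P.inf_left zb (P.symm P3)
      rwa [inf_eq_right.2 hb] at this
    · have := R.inf_right zc (R.symm R2)
      rwa [inf_eq_left.2 hc] at this
  have t4 : T.1 (zb ⊔ zc) zd := by
    apply L4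
    · have := P.sup_left zb (P.symm P3)
      rw [sup_eq_left.2 hb] at this
      exact P.trans this P2
    · have := R.sup_right zc (R.symm R2)
      rw [sup_eq_right.2 hc] at this
      exact R.trans this R3
  have t5 : T.1 (za ⊔ zb) zb := by
    apply L5
    · have := P.sup_right zb (P.trans P1 (P.symm P2))
      rwa [sup_idem] at this
    · have := W.sup_right zb (W.symm W1)
      rwa [sup_eq_right.2 hb] at this
    · have := R.sup_right zb (R.symm R1)
      rwa [sup_eq_right.2 hb] at this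
  rw [← mk_eq] at t1 t2 t3 t4 t5
  rw [mk_inf] at t1 t3
  rw [mk_sup] at t2 t4 t5
  have t6 : T.mk za = T.mk zb :=
    mod_cancel (z := T.mk zc) (sup_eq_right.1 t5) (by rw [t1, t3]) (by rw [t2, t4])
  exact W.trans W1 (L6 (T.mk_eq.1 t6))

end joins

end Pool.Agent.Work.MP_b103ef_al_h93
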