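import Pool.Agent.Work.MP_b103ef_al_helper93.Dense

set_option autoImplicit false

namespace Pool.Agent.Work.MP_b103ef_al_h93

open LCon Cardinal

section

variable {X K : Type} [Lattice K]

open Classical in
/-- The generators attached to a finite set: `u`, `v` and all joins of the `w x`. -/
noncomputable def gB (u v : K) (w : X → K) (G : Finset X) : Finset K :=
  {u, v} ∪ G.powerset.image (TT u w)

theorem gB_mono (u v : K) (w : X → K) (G G' : Finset X) (h : G ⊆ G') : gB u v w G ⊆ gB u v w G' := by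
  classical
  unfold gB
  exact Finset.union_subset_union (le_refl _)
    (Finset.image_subset_image (Finset.powerset_mono.2 h))

theorem gB_u (u v : K) (w : X → K) (G : Finset X) : u ∈ gB u v w G := by
  classical
  simp [gB]

theorem gB_TT (u v : K) (w : X → K) {A G : Finset X} (h : A ⊆ G) : TT u w A ∈ gB u v w G := by
  classical
  unfold gB
  refine Finset.mem_union_right _ (Finset.mem_image.2 ⟨A, ?_, rfl⟩)
  rw [Finset.mem_powerset]; exact h

theorem TT_single {u : K} {w : X → K} {x : X} (h : u ≤ w x) : TT u w {x} = w x := by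
  apply le_antisymm
  · rw [TT_le]
    refine ⟨h, ?_⟩
    intro y hy
    rw [Finset.mem_singleton] at hy
    rw [hy]
  · exact w_le_TT (Finset.mem_singleton_self x)

variable (φ : LCon (FL X) ≃o LCon K)

theorem avoid {ge : Finset X → Finset K} {H : Finset X} (hfree : IsFree φ ge H) {G : Finset X}
    (hG : G ⊆ H) {s t : K} (hs : s ∈ cl (cl (ge G))) (ht : t ∈ cl (cl (ge G))) {x : X}
    (hx : x ∈ supp φ s t) (hxH : x ∈ H) : x ∈ G := by
  classical
  by_contra hcon
  exact hfree G hG x hxH hcon (mem_SS φ hs ht hx)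

/-- a class of generators of the same kind that is large -/
theorem exists_class (k : ℕ) (hX : aleph (k : Ordinal) ≤ #X) (F : Finset X) (κ : X → Bool) :
    ∃ b : Bool, aleph (k : Ordinal) ≤ #({x | x ∉ F ∧ κ x = b} : Set X) := by
  by_contra hcon
  push Not at hcon
  have h1 := hcon true
  have h2 := hcon false
  have hcov : (Set.univ : Set X) ⊆ (F : Set X) ∪ ({x | x ∉ F ∧ κ x = true} ∪ {x | x ∉ F ∧ κ x = false}) := by
    intro x _
    by_cases hx : x ∈ F
    · exact Or.inl hx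
    · refine Or.inr ?_
      cases hb : κ x
      · exact Or.inr ⟨hx, hb⟩
      · exact Or.inl ⟨hx, hb⟩
  have h3 : #(F : Set X) < aleph (k : Ordinal) :=
    lt_of_lt_of_le (Cardinal.lt_aleph0_of_finite _) (aleph0_le_aleph _)
  have h4 : #X ≤ #((F : Set X) ∪ ({x | x ∉ F ∧ κ x = true} ∪ {x | x ∉ F ∧ κ x = false}) : Set X) := by
    rw [← Cardinal.mk_univ (α := X)]
    exact Cardinal.mk_le_mk_of_subset hcov
  have h5 : #((F : Set X) ∪ ({x | x ∉ F ∧ κ x = true} ∪ {x | x ∉ F ∧ κ x = false}) : Set X) <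
      aleph (k : Ordinal) := by
    refine lt_of_le_of_lt (Cardinal.mk_union_le _ _) ?_
    refine Cardinal.add_lt_of_lt (aleph0_le_aleph _) h3 ?_
    refine lt_of_le_of_lt (Cardinal.mk_union_le _ _) ?_
    exact Cardinal.add_lt_of_lt (aleph0_le_aleph _) h1 h2
  exact absurd (lt_of_le_of_lt h4 h5) (not_lt.2 hX)

open Classical in
/-- The assignment of the blocks. -/
noncomputable def hB (A B C D : Finset X) (e : N5) (ε : X → Bool) : X → N5 := fun x =>
  if x ∈ A then N5.a else if x ∈ B then N5.b else if x ∈ C then N5.c else if x ∈ D then e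
  else val (ε x)

theorem val_ne (b : Bool) : val b ≠ N5.a ∧ val b ≠ N5.b ∧ val b ≠ N5.c := by
  cases b <;> simp [val]

theorem pi_val (b : Bool) : N5.pi (val b) = val b := by cases b <;> rfl
theorem rho_val (b : Bool) : N5.rho (val b) = val b := by cases b <;> rfl
theorem tau_val (b : Bool) : N5.tau (val b) = val b := by cases b <;> rfl

include φ in
theorem dense_simple [IsModularLattice K] (hX : ∀ k : ℕ, aleph (k : Ordinal) ≤ #X) :
    ∃ ψ : LCon K, (∃ s t, ¬ ψ.1 s t) ∧ (∀ η : LCon K, ψ ≤ η → η = ψ ∨ ∀ s t, η.1 s t) ∧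
      ∀ x y : K, x ≤ y → ¬ ψ.1 x y → ∃ z, x ≤ z ∧ z ≤ y ∧ ¬ ψ.1 x z ∧ ¬ ψ.1 z y := by
  classical
  by_contra hcontra
  push Not at hcontra
  obtain ⟨u, v, huv', huv⟩ := exists_uv φ
  have hlen : ∀ ε : X → Bool, ∃ N, BD (Th φ (bv ε)) u v N := by
    intro ε
    obtain ⟨p, q, hpq, hn, hpr⟩ := hcontra (Th φ (bv ε)) ⟨u, v, not_Th_of φ huv _⟩ (Th_max φ ε)
    refine exists_BD (Th_max φ ε) hpq hn ?_ huv'
    intro z hz hz'
    by_cases h : (Th φ (bv ε)).1 p z
    · exact Or.inl h
    · exact Or.inr (hpr z hz hz' h)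
  obtain ⟨F0, ε0, m, hbound⟩ := exists_bound φ hlen
  have hw := fun x : X => exists_w φ huv' huv x (fun κ => Function.update ε0 x κ)
    (fun κ => Function.update_self x κ ε0)
  choose κ w hw1 hw2 hw3 hw4 using hw
  obtain ⟨k0, hk0⟩ := exists_class (4 ^ (m + 1) - 1) (hX _) F0 κ
  obtain ⟨H, hHY, hHc, hfree⟩ := exists_isFree φ (4 ^ (m + 1) - 1) _ hk0 (gB u v w) (gB_mono u v w)
  have hHc' : H.card = 4 ^ (m + 1) := by
    have : 0 < 4 ^ (m + 1) := by positivity
    omega
  -- support facts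
  have F1 : ∀ g : X → N5, (∀ x, x ∉ H → g x = val (ε0 x)) → ∀ x ∈ H, g x = val k0 →
      (Th φ g).1 u (w x) := by
    intro g hg x hx hgx
    have h1 := hw3 x
    rw [(hHY x hx).2] at h1
    refine supp_loc (fun y hy => ?_) h1
    unfold bv
    by_cases hyx : y = x
    · subst hyx
      rw [Function.update_self, hgx]
    · rw [Function.update_of_ne hyx]
      by_cases hyH : y ∈ H
      · exfalso
        have h2 := avoid φ hfree (G := {x}) (Finset.singleton_subset_iff.2 hx)
          (mem_cl (mem_cl (gB_u u v w _)))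
          (mem_cl (mem_cl (by rw [← TT_single (hw1 x)]; exact gB_TT u v w (le_refl _)))) hy hyH
        exact hyx (Finset.mem_singleton.1 h2)
      · exact (hg y hyH).symm
  have F2 : ∀ g : X → N5, (∀ x, x ∉ H → g x = val (ε0 x)) → ∀ x ∈ H, g x = val (!k0) →
      ¬ (Th φ g).1 u (w x) := by
    intro g hg x hx hgx hcon
    have h1 := hw4 x
    rw [(hHY x hx).2] at h1
    apply h1
    refine supp_loc (fun y hy => ?_) hcon
    unfold bv
    by_cases hyx : y = x
    · subst hyx
      rw [Function.update_self, hgx]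
    · rw [Function.update_of_ne hyx]
      by_cases hyH : y ∈ H
      · exfalso
        have h2 := avoid φ hfree (G := {x}) (Finset.singleton_subset_iff.2 hx)
          (mem_cl (mem_cl (gB_u u v w _)))
          (mem_cl (mem_cl (by rw [← TT_single (hw1 x)]; exact gB_TT u v w (le_refl _)))) hy hyH
        exact hyx (Finset.mem_singleton.1 h2)
      · exact hg y hyH
  set εs : X → Bool := fun x => if x ∈ H then !k0 else ε0 x with hεs
  have FE : ∀ g : X → N5, (∀ x, x ∉ H → g x = val (ε0 x)) → ∀ A D : Finset X, A ⊆ H → D ⊆ H →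
      (∀ x ∈ A, g x = val (!k0)) → (∀ x ∈ D, g x = val (!k0)) →
      (Th φ (bv εs)).1 (TT u w A) (TT u w D) → (Th φ g).1 (TT u w A) (TT u w D) := by
    intro g hg A D hA hD gA gD h
    refine supp_loc (fun y hy => ?_) h
    unfold bv
    by_cases hyH : y ∈ H
    · have h2 := avoid φ hfree (G := A ∪ D) (Finset.union_subset hA hD)
        (mem_cl (mem_cl (gB_TT u v w Finset.subset_union_left)))
        (mem_cl (mem_cl (gB_TT u v w Finset.subset_union_right))) hy hyH
      simp only [hεs, hyH, if_true]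
      rcases Finset.mem_union.1 h2 with h3 | h3
      · exact (gA y h3).symm
      · exact (gD y h3).symm
    · simp only [hεs, hyH, if_false]
      exact (hg y hyH).symm
  have FT : ∀ g : X → N5, (∀ x, x ∉ H → g x = val (ε0 x)) → ∀ A : Finset X, A ⊆ H →
      (∀ x ∈ A, g x = val k0) → (Th φ g).1 u (TT u w A) := fun g hg A hA gA =>
    TT_rel _ (fun x hx => F1 g hg x (hA hx) (gA x hx))
  have hBD : BD (Th φ (bv εs)) u (TT u w H) m := by
    refine (hbound εs (fun x hx => ?_)).mono (le_refl _) (TT_le.2 ⟨huv', fun x _ => hw2 x⟩)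
    have : x ∉ H := fun hxH => (hHY x hxH).1 hx
    simp only [hεs, this, if_false]
  obtain ⟨A, B, C, D, hA, hB', hC, hD, nA, nB, nC, nD, dAB, dAC, dAD, dBC, dBD, dCD, rA, rB, rC⟩ :=
    exists_blocks (Th φ (bv εs)) u w m H (by rw [hHc']) hBD
  set h : X → N5 := hB A B C D (val (!k0)) ε0 with hh
  have hhA : ∀ x ∈ A, h x = N5.a := by
    intro x hx; simp [hh, hB, hx]
  have hhB : ∀ x ∈ B, h x = N5.b := by
    intro x hx
    have h1 : x ∉ A := fun h => Finset.disjoint_left.1 dAB h hx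
    simp [hh, hB, hx, h1]
  have hhC : ∀ x ∈ C, h x = N5.c := by
    intro x hx
    have h1 : x ∉ A := fun h => Finset.disjoint_left.1 dAC h hx
    have h2 : x ∉ B := fun h => Finset.disjoint_left.1 dBC h hx
    simp [hh, hB, hx, h1, h2]
  have hhD : ∀ x ∈ D, h x = val (!k0) := by
    intro x hx
    have h1 : x ∉ A := fun h => Finset.disjoint_left.1 dAD h hx
    have h2 : x ∉ B := fun h => Finset.disjoint_left.1 dBD h hx
    have h3 : x ∉ C := fun h => Finset.disjoint_left.1 dCD h hx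
    simp [hh, hB, hx, h1, h2, h3]
  have hhO : ∀ x, x ∉ H → h x = val (ε0 x) := by
    intro x hx
    have h1 : x ∉ A := fun h => hx (hA h)
    have h2 : x ∉ B := fun h => hx (hB' h)
    have h3 : x ∉ C := fun h => hx (hC h)
    have h4 : x ∉ D := fun h => hx (hD h)
    simp [hh, hB, h1, h2, h3, h4]
  have hna : ∀ x, x ∉ A → h x ≠ N5.a := by
    intro x hx
    simp only [hh, hB, hx, if_false]
    split_ifs
    · simp
    · simp
    · exact (val_ne _).1
    · exact (val_ne _).1
  have hnb : ∀ x, x ∉ B → h x ≠ N5.b := by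
    intro x hx
    simp only [hh, hB, hx, if_false]
    split_ifs
    · simp
    · simp
    · exact (val_ne _).2.1
    · exact (val_ne _).2.1
  have hnc : ∀ x, x ∉ C → h x ≠ N5.c := by
    intro x hx
    simp only [hh, hB, hx, if_false]
    split_ifs
    · simp
    · simp
    · exact (val_ne _).2.2
    · exact (val_ne _).2.2
  have hpO : ∀ x, x ∉ H → N5.pi (h x) = val (ε0 x) := fun x hx => by rw [hhO x hx, pi_val]
  have hrO : ∀ x, x ∉ H → N5.rho (h x) = val (ε0 x) := fun x hx => by rw [hhO x hx, rho_val]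
  have htO : ∀ x, x ∉ H → N5.tau (h x) = val (ε0 x) := fun x hx => by rw [hhO x hx, tau_val]
  -- lifting lemmas
  have Lnb : ∀ s t : K, ∀ G ⊆ H, Disjoint G B → s ∈ cl (cl (gB u v w G)) → t ∈ cl (cl (gB u v w G)) →
      (Th φ (fun x => N5.pi (h x))).1 s t → (Th φ (fun x => N5.rho (h x))).1 s t →
      (Th φ h).1 s t := by
    intro s t G hG hd hs ht h1 h2
    refine supp_nb (fun x hx => hnb x (fun hxB => ?_)) h1 h2
    exact Finset.disjoint_left.1 hd (avoid φ hfree hG hs ht hx (hB' hxB)) hxB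
  have Lna : ∀ s t : K, ∀ G ⊆ H, Disjoint G A → s ∈ cl (cl (gB u v w G)) → t ∈ cl (cl (gB u v w G)) →
      (Th φ (fun x => N5.pi (h x))).1 s t → (Th φ (fun x => N5.rho (h x))).1 s t →
      (Th φ h).1 s t := by
    intro s t G hG hd hs ht h1 h2
    refine supp_na (fun x hx => hna x (fun hxA => ?_)) h1 h2
    exact Finset.disjoint_left.1 hd (avoid φ hfree hG hs ht hx (hA hxA)) hxA
  have Lnc : ∀ s t : K, ∀ G ⊆ H, Disjoint G C → s ∈ cl (cl (gB u v w G)) → t ∈ cl (cl (gB u v w G)) →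
      (Th φ (fun x => N5.pi (h x))).1 s t → (Th φ (fun x => N5.tau (h x))).1 s t →
      (Th φ (fun x => N5.rho (h x))).1 s t → (Th φ h).1 s t := by
    intro s t G hG hd hs ht h1 h3 h2
    refine supp_nc (fun x hx => hnc x (fun hxC => ?_)) h1 h3 h2
    exact Finset.disjoint_left.1 hd (avoid φ hfree hG hs ht hx (hC hxC)) hxC
  have Dnc : ∀ s t : K, ∀ G ⊆ H, Disjoint G C → s ∈ cl (cl (gB u v w G)) → t ∈ cl (cl (gB u v w G)) →
      (Th φ h).1 s t → (Th φ (fun x => N5.tau (h x))).1 s t := by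
    intro s t G hG hd hs ht h1
    refine supp_tau (fun x hx => hnc x (fun hxC => ?_)) h1
    exact Finset.disjoint_left.1 hd (avoid φ hfree hG hs ht hx (hC hxC)) hxC
  have sAC : A ∪ C ∪ D ⊆ H := Finset.union_subset (Finset.union_subset hA hC) hD
  have sBC : B ∪ C ∪ D ⊆ H := Finset.union_subset (Finset.union_subset hB' hC) hD
  have sAB : A ∪ B ⊆ H := Finset.union_subset hA hB'
  have d1 : Disjoint (A ∪ C ∪ D) B := by
    rw [Finset.disjoint_union_left, Finset.disjoint_union_left]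
    exact ⟨⟨dAB, dBC.symm⟩, dBD.symm⟩
  have d2 : Disjoint (B ∪ C ∪ D) A := by
    rw [Finset.disjoint_union_left, Finset.disjoint_union_left]
    exact ⟨⟨dAB.symm, dAC.symm⟩, dAD.symm⟩
  have d3 : Disjoint (A ∪ B) C := by
    rw [Finset.disjoint_union_left]
    exact ⟨dAC, dBC⟩
  -- membership
  have i1 : TT u w A ∈ gB u v w (A ∪ C ∪ D) := gB_TT u v w
    (Finset.subset_union_left.trans Finset.subset_union_left)
  have i2 : TT u w C ∈ gB u v w (A ∪ C ∪ D) := gB_TT u v w
    (Finset.subset_union_right.trans Finset.subset_union_left)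
  have i3 : TT u w D ∈ gB u v w (A ∪ C ∪ D) := gB_TT u v w Finset.subset_union_right
  have i4 : TT u w B ∈ gB u v w (B ∪ C ∪ D) := gB_TT u v w
    (Finset.subset_union_left.trans Finset.subset_union_left)
  have i5 : TT u w C ∈ gB u v w (B ∪ C ∪ D) := gB_TT u v w
    (Finset.subset_union_right.trans Finset.subset_union_left)
  have i6 : TT u w D ∈ gB u v w (B ∪ C ∪ D) := gB_TT u v w Finset.subset_union_right
  have i7 : TT u w A ∈ gB u v w (A ∪ B) := gB_TT u v w Finset.subset_union_left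
  have i8 : TT u w B ∈ gB u v w (A ∪ B) := gB_TT u v w Finset.subset_union_right
  cases hk : k0
  · -- the class of `false`
    rw [hk] at F1 F2 FE FT hhD
    have hfin := final_step (T := Th φ h) (P := Th φ (fun x => N5.pi (h x)))
      (R := Th φ (fun x => N5.rho (h x))) (W := Th φ (fun x => N5.tau (h x)))
      (u := u) (za := TT u w A) (zb := TT u w B) (zc := TT u w C) (zd := TT u w D)
      le_TT le_TT le_TT
      (FE _ hpO A D hA hD (fun x hx => by rw [hhA x hx]; rfl) (fun x hx => by rw [hhD x hx]; rfl) rA)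
      (FE _ hpO B D hB' hD (fun x hx => by rw [hhB x hx]; rfl) (fun x hx => by rw [hhD x hx]; rfl) rB)
      (FT _ hpO C hC (fun x hx => by rw [hhC x hx]; rfl))
      (FT _ hrO A hA (fun x hx => by rw [hhA x hx]; rfl))
      (FT _ hrO B hB' (fun x hx => by rw [hhB x hx]; rfl))
      (FE _ hrO C D hC hD (fun x hx => by rw [hhC x hx]; rfl) (fun x hx => by rw [hhD x hx]; rfl) rC)
      (FT _ htO A hA (fun x hx => by rw [hhA x hx]; rfl))
      (Lnb _ _ _ sAC d1 (mem_cl (inf_mem_cl i1 i2)) (mem_cl (mem_cl (gB_u u v w _))))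
      (Lnb _ _ _ sAC d1 (mem_cl (sup_mem_cl i1 i2)) (mem_cl (mem_cl i3)))
      (Lna _ _ _ sBC d2 (mem_cl (inf_mem_cl i4 i5)) (mem_cl (mem_cl (gB_u u v w _))))
      (Lna _ _ _ sBC d2 (mem_cl (sup_mem_cl i4 i5)) (mem_cl (mem_cl i6)))
      (Lnc _ _ _ sAB d3 (mem_cl (sup_mem_cl i7 i8)) (mem_cl (mem_cl i8)))
      (Dnc _ _ _ sAB d3 (mem_cl (mem_cl i7)) (mem_cl (mem_cl i8)))
    obtain ⟨x, hx⟩ := nB
    refine F2 _ htO x (hB' hx) (by rw [hhB x hx]; rfl) ?_
    exact (Th φ _).bot_mid hfin (hw1 x) (w_le_TT hx)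
  · rw [hk] at F1 F2 FE FT hhD
    have hfin := final_step (T := Th φ h) (P := Th φ (fun x => N5.rho (h x)))
      (R := Th φ (fun x => N5.pi (h x))) (W := Th φ (fun x => N5.tau (h x)))
      (u := u) (za := TT u w B) (zb := TT u w A) (zc := TT u w C) (zd := TT u w D)
      le_TT le_TT le_TT
      (FE _ hrO B D hB' hD (fun x hx => by rw [hhB x hx]; rfl) (fun x hx => by rw [hhD x hx]; rfl) rB)
      (FE _ hrO A D hA hD (fun x hx => by rw [hhA x hx]; rfl) (fun x hx => by rw [hhD x hx]; rfl) rA)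
      (FT _ hrO C hC (fun x hx => by rw [hhC x hx]; rfl))
      (FT _ hpO B hB' (fun x hx => by rw [hhB x hx]; rfl))
      (FT _ hpO A hA (fun x hx => by rw [hhA x hx]; rfl))
      (FE _ hpO C D hC hD (fun x hx => by rw [hhC x hx]; rfl) (fun x hx => by rw [hhD x hx]; rfl) rC)
      (FT _ htO B hB' (fun x hx => by rw [hhB x hx]; rfl))
      (fun h1 h2 => Lna _ _ _ sBC d2 (mem_cl (inf_mem_cl i4 i5)) (mem_cl (mem_cl (gB_u u v w _))) h2 h1)
      (fun h1 h2 => Lna _ _ _ sBC d2 (mem_cl (sup_mem_cl i4 i5)) (mem_cl (mem_cl i6)) h2 h1)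
      (fun h1 h2 => Lnb _ _ _ sAC d1 (mem_cl (inf_mem_cl i1 i2)) (mem_cl (mem_cl (gB_u u v w _))) h2 h1)
      (fun h1 h2 => Lnb _ _ _ sAC d1 (mem_cl (sup_mem_cl i1 i2)) (mem_cl (mem_cl i3)) h2 h1)
      (fun h1 h2 h3 => Lnc _ _ _ sAB d3 (mem_cl (sup_mem_cl i8 i7)) (mem_cl (mem_cl i7)) h3 h2 h1)
      (Dnc _ _ _ sAB d3 (mem_cl (mem_cl i8)) (mem_cl (mem_cl i7)))
    obtain ⟨x, hx⟩ := nA
    refine F2 _ htO x (hA hx) (by rw [hhA x hx]; rfl) ?_
    exact (Th φ _).bot_mid hfin (hw1 x) (w_le_TT hx)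

end

end Pool.Agent.Work.MP_b103ef_al_h93
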