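import Pool.Agent.Work.MP_b103ef_al_helper93.Setup

set_option autoImplicit false

namespace Pool.Agent.Work.MP_b103ef_al_h93

open LCon Cardinal

/-- lower and upper ends of the cells of two chains -/
def lo {K : Type} [Lattice K] (y z : ℕ → K) (j k : ℕ) : K := (y j ⊓ z (k + 1)) ⊔ (y (j + 1) ⊓ z k)
def up {K : Type} [Lattice K] (y z : ℕ → K) (j k : ℕ) : K := y (j + 1) ⊓ z (k + 1)

section cells

variable {K : Type} [Lattice K]

theorem lo_comm (y z : ℕ → K) (j k : ℕ) : lo z y k j = lo y z j k := by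
  unfold lo
  rw [sup_comm, inf_comm (z (k + 1)), inf_comm (z k)]

theorem up_comm (y z : ℕ → K) (j k : ℕ) : up z y k j = up y z j k := by
  unfold up
  rw [inf_comm]

theorem lo_le_up {y z : ℕ → K} (hy : Monotone y) (hz : Monotone z) (j k : ℕ) :
    lo y z j k ≤ up y z j k :=
  sup_le (inf_le_inf_right _ (hy (Nat.le_succ j))) (inf_le_inf_left _ (hz (Nat.le_succ k)))

theorem cell_rel (r : LCon K) {y z : ℕ → K} (hz : Monotone z) {j k : ℕ}
    (h : r.1 (y j) (y (j + 1))) : r.1 (lo y z j k) (up y z j k) := by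
  have h1 := r.sup_right (y (j + 1) ⊓ z k) (r.inf_right (z (k + 1)) h)
  have h2 : y (j + 1) ⊓ z (k + 1) ⊔ y (j + 1) ⊓ z k = y (j + 1) ⊓ z (k + 1) :=
    sup_eq_left.2 (inf_le_inf_left _ (hz (Nat.le_succ k)))
  rw [h2] at h1
  exact h1

theorem cell_rel' (r : LCon K) {y z : ℕ → K} (hy : Monotone y) {j k : ℕ}
    (h : r.1 (z k) (z (k + 1))) : r.1 (lo y z j k) (up y z j k) := by
  rw [← lo_comm, ← up_comm]
  exact cell_rel r hy h

/-- the refined chain inside a step -/
def rf (y z : ℕ → K) (j k : ℕ) : K := y j ⊔ (y (j + 1) ⊓ z k)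

theorem rf_sup_up {y z : ℕ → K} (hz : Monotone z) (j k : ℕ) :
    rf y z j k ⊔ up y z j k = rf y z j (k + 1) := by
  unfold rf up
  rw [sup_assoc, sup_eq_right.2 (inf_le_inf_left (y (j + 1)) (hz (Nat.le_succ k)))]

theorem lo_le_rf (y z : ℕ → K) (j k : ℕ) : lo y z j k ≤ rf y z j k :=
  sup_le (inf_le_left.trans le_sup_left) le_sup_right

theorem rf_rel (r : LCon K) {y z : ℕ → K} (hz : Monotone z) {j k : ℕ}
    (h : r.1 (lo y z j k) (up y z j k)) : r.1 (rf y z j k) (rf y z j (k + 1)) := by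
  have h1 := r.sup_left (rf y z j k) h
  rwa [rf_sup_up hz, sup_eq_left.2 (lo_le_rf y z j k)] at h1

theorem rf_inf_up [IsModularLattice K] {y z : ℕ → K} (hy : Monotone y) (hz : Monotone z) (j k : ℕ) :
    rf y z j k ⊓ up y z j k = lo y z j k := by
  unfold rf up lo
  have h1 : y (j + 1) ⊓ z k ≤ y (j + 1) ⊓ z (k + 1) := inf_le_inf_left _ (hz (Nat.le_succ k))
  rw [sup_comm (y j), sup_comm (y j ⊓ z (k + 1)), sup_inf_assoc_of_le (y j) h1, ← inf_assoc,
    inf_eq_left.2 (hy (Nat.le_succ j))]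

theorem rel_chain (r : LCon K) {f : ℕ → K} (n : ℕ) (h : ∀ i < n, r.1 (f i) (f (i + 1))) :
    r.1 (f 0) (f n) := by
  induction n with
  | zero => exact r.refl _
  | succ n ih => exact r.trans (ih (fun i hi => h i (by omega))) (h n (by omega))

/-- A chain from `u` to `v` with its first members in `S`. -/
structure Ch (S : Set K) (u v : K) (n : ℕ) (y : ℕ → K) : Prop where
  y0 : y 0 = u
  yn : y n = v
  mono : Monotone y
  mem : ∀ i ≤ n, y i ∈ S

/-- A dimension function on a sublattice. -/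
structure Dim (r : LCon K) (S : Set K) (M : Type) [AddCommMonoid M] (D : K → K → M) : Prop where
  zero : ∀ x ∈ S, ∀ y ∈ S, x ≤ y → r.1 x y → D x y = 0
  add : ∀ x ∈ S, ∀ y ∈ S, ∀ z ∈ S, x ≤ y → y ≤ z → D x z = D x y + D y z
  dia : ∀ x ∈ S, ∀ y ∈ S, D (x ⊓ y) y = D x (x ⊔ y)

variable {S : Set K} {r : LCon K} {M : Type} [AddCommMonoid M] {D : K → K → M}

theorem Dim.tele (hD : Dim r S M D) {f : ℕ → K} (hf : Monotone f) (n : ℕ) (hm : ∀ i ≤ n, f i ∈ S) :
    D (f 0) (f n) = ∑ i ∈ Finset.range n, D (f i) (f (i + 1)) := by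
  induction n with
  | zero =>
    rw [Finset.sum_range_zero]
    exact hD.zero _ (hm 0 (le_refl _)) _ (hm 0 (le_refl _)) (le_refl _) (r.refl _)
  | succ n ih =>
    rw [Finset.sum_range_succ, ← ih (fun i hi => hm i (by omega))]
    exact hD.add _ (hm 0 (by omega)) _ (hm n (by omega)) _ (hm (n + 1) (le_refl _))
      (hf (Nat.zero_le _)) (hf (Nat.le_succ _))

variable (hS : IsSublattice S)

include hS

theorem mem_lo {y z : ℕ → K} {n n' : ℕ} (hy : ∀ i ≤ n, y i ∈ S) (hz : ∀ i ≤ n', z i ∈ S) {j k : ℕ}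
    (hj : j < n) (hk : k < n') : lo y z j k ∈ S :=
  hS.supClosed (hS.infClosed (hy j (by omega)) (hz (k + 1) (by omega)))
    (hS.infClosed (hy (j + 1) (by omega)) (hz k (by omega)))

theorem mem_up {y z : ℕ → K} {n n' : ℕ} (hy : ∀ i ≤ n, y i ∈ S) (hz : ∀ i ≤ n', z i ∈ S) {j k : ℕ}
    (hj : j < n) (hk : k < n') : up y z j k ∈ S :=
  hS.infClosed (hy (j + 1) (by omega)) (hz (k + 1) (by omega))

theorem Dim.cellsum [IsModularLattice K] (hD : Dim r S M D) {u v : K} {n n' : ℕ} {y z : ℕ → K}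
    (hy : Ch S u v n y) (hz : Ch S u v n' z) {j : ℕ} (hj : j < n) :
    D (y j) (y (j + 1)) = ∑ k ∈ Finset.range n', D (lo y z j k) (up y z j k) := by
  have e0 : rf y z j 0 = y j := by
    unfold rf
    rw [hz.y0]
    apply sup_eq_left.2
    rw [← hy.y0]
    exact inf_le_right.trans (hy.mono (Nat.zero_le _))
  have en : rf y z j n' = y (j + 1) := by
    unfold rf
    rw [hz.yn, ← hy.yn, inf_eq_left.2 (hy.mono (by omega : j + 1 ≤ n))]
    exact sup_eq_right.2 (hy.mono (Nat.le_succ _))
  have hmono : Monotone (rf y z j) := fun k k' h =>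
    sup_le_sup_left (inf_le_inf_left _ (hz.mono h)) _
  have hmem : ∀ k ≤ n', rf y z j k ∈ S := fun k hk =>
    hS.supClosed (hy.mem j (by omega)) (hS.infClosed (hy.mem (j + 1) (by omega)) (hz.mem k hk))
  have h1 := hD.tele hmono n' hmem
  rw [e0, en] at h1
  rw [h1]
  apply Finset.sum_congr rfl
  intro k hk
  rw [Finset.mem_range] at hk
  rw [← rf_sup_up hz.mono, ← hD.dia _ (hmem k (by omega)) _ (mem_up hS hy.mem hz.mem hj hk),
    rf_inf_up hy.mono hz.mono]

omit hS

open Classical in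
/-- Sum over the steps of a given type. -/
noncomputable def sg (D : K → K → M) (n : ℕ) (y : ℕ → K) (ty : ℕ → Bool) (b : Bool) : M :=
  ∑ j ∈ (Finset.range n).filter (fun j => ty j = b), D (y j) (y (j + 1))

open Classical in
/-- Sum over the cells of given types. -/
noncomputable def wg (D : K → K → M) (n : ℕ) (y : ℕ → K) (ty : ℕ → Bool) (n' : ℕ) (z : ℕ → K)
    (tz : ℕ → Bool) (b b' : Bool) : M :=
  ∑ j ∈ (Finset.range n).filter (fun j => ty j = b),
    ∑ k ∈ (Finset.range n').filter (fun k => tz k = b'), D (lo y z j k) (up y z j k)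

theorem sum_two {ι : Type} (s : Finset ι) (ty : ι → Bool) (f : ι → M) :
    ∑ j ∈ s, f j = ∑ j ∈ s.filter (fun j => ty j = true), f j +
      ∑ j ∈ s.filter (fun j => ty j = false), f j := by
  classical
  rw [← Finset.sum_filter_add_sum_filter_not s (fun j => ty j = true) f]
  refine congrArg₂ (· + ·) rfl ?_
  apply Finset.sum_congr _ (fun _ _ => rfl)
  ext j
  simp only [Finset.mem_filter, Bool.not_eq_true]

theorem sg_eq [IsModularLattice K] (hS : IsSublattice S) (hD : Dim r S M D) {u v : K} {n n' : ℕ}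
    {y z : ℕ → K} (hy : Ch S u v n y) (hz : Ch S u v n' z) (ty tz : ℕ → Bool) (b : Bool) :
    sg D n y ty b = wg D n y ty n' z tz b true + wg D n y ty n' z tz b false := by
  classical
  unfold sg wg
  rw [← Finset.sum_add_distrib]
  apply Finset.sum_congr rfl
  intro j hj
  rw [Finset.mem_filter, Finset.mem_range] at hj
  rw [hD.cellsum hS hy hz hj.1]
  exact sum_two _ tz _

theorem wg_comm (n : ℕ) (y : ℕ → K) (ty : ℕ → Bool) (n' : ℕ) (z : ℕ → K)
    (tz : ℕ → Bool) (b b' : Bool) : wg D n' z tz n y ty b' b = wg D n y ty n' z tz b b' := by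
  classical
  unfold wg
  rw [Finset.sum_comm]
  apply Finset.sum_congr rfl
  intro j _
  apply Finset.sum_congr rfl
  intro k _
  rw [lo_comm, up_comm]

theorem wg_zero (hS : IsSublattice S) (hD : Dim r S M D) {u v : K} {n n' : ℕ}
    {y z : ℕ → K} (hy : Ch S u v n y) (hz : Ch S u v n' z) (ty tz : ℕ → Bool) (b b' : Bool)
    (h : ∀ j < n, ∀ k < n', ty j = b → tz k = b' → r.1 (lo y z j k) (up y z j k)) :
    wg D n y ty n' z tz b b' = 0 := by
  classical
  unfold wg
  apply Finset.sum_eq_zero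
  intro j hj
  rw [Finset.mem_filter, Finset.mem_range] at hj
  apply Finset.sum_eq_zero
  intro k hk
  rw [Finset.mem_filter, Finset.mem_range] at hk
  exact hD.zero _ (mem_lo hS hy.mem hz.mem hj.1 hk.1) _ (mem_up hS hy.mem hz.mem hj.1 hk.1)
    (lo_le_up hy.mono hz.mono j k) (h j hj.1 k hk.1 hj.2 hk.2)

theorem sum_zero (hc : ∀ x y : M, x + y = 0 → x = 0) {ι : Type} (s : Finset ι) (f : ι → M)
    (h : ∑ i ∈ s, f i = 0) : ∀ i ∈ s, f i = 0 := by
  classical
  intro i hi
  rw [← Finset.add_sum_erase s f hi] at h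
  exact hc _ _ h

/-- Two chains whose cells of equal type collapse have equal typed sums. -/
theorem sg_swap [IsModularLattice K] (hS : IsSublattice S) (hD : Dim r S M D) {u v : K} {n n' : ℕ}
    {y z : ℕ → K} (hy : Ch S u v n y) (hz : Ch S u v n' z) (ty tz : ℕ → Bool)
    (h : ∀ j < n, ∀ k < n', ty j = tz k → r.1 (lo y z j k) (up y z j k)) (b : Bool) :
    sg D n y ty b = sg D n' z tz (!b) := by
  have h1 : ∀ b, wg D n y ty n' z tz b b = 0 := fun b =>
    wg_zero hS hD hy hz ty tz b b (fun j hj k hk e1 e2 => h j hj k hk (e1.trans e2.symm))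
  rw [sg_eq hS hD hy hz ty tz b, sg_eq hS hD hz hy tz ty (!b)]
  cases b
  · rw [h1 false, add_zero, Bool.not_false, wg_comm n y ty n' z tz true true,
      wg_comm n y ty n' z tz false true, h1 true, zero_add]
  · rw [h1 true, zero_add, Bool.not_true, wg_comm n y ty n' z tz true false,
      wg_comm n y ty n' z tz false false, h1 false, add_zero]

/-- The final computation: all cells of type true-false have dimension zero. -/
theorem cells_zero [IsModularLattice K] [IsCancelAdd M] (hc : ∀ x y : M, x + y = 0 → x = 0)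
    (hS : IsSublattice S) (hD : Dim r S M D) {u v : K}
    {na nb nc : ℕ} {ya yb yc : ℕ → K} (ha : Ch S u v na ya) (hb : Ch S u v nb yb)
    (hc' : Ch S u v nc yc) (ta tb tc : ℕ → Bool)
    (hac : ∀ j < na, ∀ k < nc, ta j = tc k → r.1 (lo ya yc j k) (up ya yc j k))
    (hbc : ∀ j < nb, ∀ k < nc, tb j = tc k → r.1 (lo yb yc j k) (up yb yc j k))
    (hab : ∀ j < na, ∀ k < nb, ta j = false → tb k = true → r.1 (lo ya yb j k) (up ya yb j k)) :
    ∀ j < na, ∀ k < nb, ta j = true → tb k = false → D (lo ya yb j k) (up ya yb j k) = 0 := by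
  classical
  have e1 := sg_swap hS hD ha hc' ta tc hac false
  have e2 := sg_swap hS hD hb hc' tb tc hbc false
  have e3 : sg D na ya ta false = sg D nb yb tb false := e1.trans e2.symm
  rw [sg_eq hS hD ha hb ta tb false, sg_eq hS hD hb ha tb ta false,
    wg_zero hS hD ha hb ta tb false true hab, zero_add,
    wg_comm na ya ta nb yb tb true false, wg_comm na ya ta nb yb tb false false] at e3
  have e4 : wg D na ya ta nb yb tb true false = 0 := by
    apply add_right_cancel (b := wg D na ya ta nb yb tb false false)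
    rw [zero_add]
    exact e3.symm
  intro j hj k hk hja hkb
  unfold wg at e4
  have e5 := sum_zero hc _ _ e4 j (by rw [Finset.mem_filter, Finset.mem_range]; exact ⟨hj, hja⟩)
  exact sum_zero hc _ _ e5 k (by rw [Finset.mem_filter, Finset.mem_range]; exact ⟨hk, hkb⟩)

end cells

section main

variable {X K : Type} [Lattice K]

open Classical in
/-- The members of the chains of the generators in `G`. -/
noncomputable def gC (u v : K) (n : X → ℕ) (y : X → ℕ → K) (G : Finset X) : Finset K :=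
  {u, v} ∪ G.biUnion (fun x => (Finset.range (n x + 1)).image (y x))

theorem gC_mono (u v : K) (n : X → ℕ) (y : X → ℕ → K) (G G' : Finset X) (h : G ⊆ G') :
    gC u v n y G ⊆ gC u v n y G' := by
  classical
  unfold gC
  exact Finset.union_subset_union (le_refl _) (Finset.biUnion_subset_biUnion_of_subset_left _ h)

theorem gC_mem (u v : K) (n : X → ℕ) (y : X → ℕ → K) {G : Finset X} {x : X} (hx : x ∈ G) {i : ℕ}
    (hi : i ≤ n x) : y x i ∈ gC u v n y G := by
  classical
  unfold gC
  refine Finset.mem_union_right _ (Finset.mem_biUnion.2 ⟨x, hx, Finset.mem_image.2 ⟨i, ?_, rfl⟩⟩)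
  rw [Finset.mem_range]; omega

theorem cl_lo {A : Finset K} {y z : ℕ → K} {n n' : ℕ} (hy : ∀ i ≤ n, y i ∈ A) (hz : ∀ i ≤ n', z i ∈ A)
    {j k : ℕ} (hj : j < n) (hk : k < n') : lo y z j k ∈ cl (cl A) :=
  sup_mem_cl (inf_mem_cl (hy j (by omega)) (hz (k + 1) (by omega)))
    (inf_mem_cl (hy (j + 1) (by omega)) (hz k (by omega)))

theorem cl_up {A : Finset K} {y z : ℕ → K} {n n' : ℕ} (hy : ∀ i ≤ n, y i ∈ A) (hz : ∀ i ≤ n', z i ∈ A)
    {j k : ℕ} (hj : j < n) (hk : k < n') : up y z j k ∈ cl (cl A) :=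
  mem_cl (inf_mem_cl (hy (j + 1) (by omega)) (hz (k + 1) (by omega)))

variable (φ : LCon (FL X) ≃o LCon K)

include φ in
theorem dim_collapse [IsModularLattice K] (hX : aleph ((2 : ℕ) : Ordinal) ≤ #X) :
    ∃ (θ : LCon K) (E : Set K), E.Finite ∧ ∃ s ∈ latticeClosure E, ∃ t ∈ latticeClosure E,
      s ≤ t ∧ ¬ θ.1 s t ∧
      ∀ (M : Type) [AddCommMonoid M] [IsCancelAdd M], (∀ x y : M, x + y = 0 → x = 0) →
        ∀ D : K → K → M,
          (∀ x ∈ latticeClosure E, ∀ y ∈ latticeClosure E, x ≤ y → θ.1 x y → D x y = 0) →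
          (∀ x ∈ latticeClosure E, ∀ y ∈ latticeClosure E, ∀ z ∈ latticeClosure E, x ≤ y → y ≤ z →
            D x z = D x y + D y z) →
          (∀ x ∈ latticeClosure E, ∀ y ∈ latticeClosure E, D (x ⊓ y) y = D x (x ⊔ y)) →
          D s t = 0 := by
  classical
  obtain ⟨u, v, huv', huv⟩ := exists_uv φ
  have hch := fun x : X => exists_chain φ x huv'
  choose n y ty hy0 hyn hmono hst using hch
  obtain ⟨H, -, hcard, hfree⟩ := exists_isFree φ 2 Set.univ (by simpa using hX) (gC u v n y)
    (gC_mono u v n y)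
  obtain ⟨a, b, c, hab, hac, hbc, rfl⟩ := Finset.card_eq_three.1 hcard
  set T : LCon K := Th φ (hh a b c) with hT
  have mA : ∀ (G : Finset X), a ∈ G → ∀ i ≤ n a, y a i ∈ gC u v n y G := fun G h i hi =>
    gC_mem u v n y h hi
  have mB : ∀ (G : Finset X), b ∈ G → ∀ i ≤ n b, y b i ∈ gC u v n y G := fun G h i hi =>
    gC_mem u v n y h hi
  have mC : ∀ (G : Finset X), c ∈ G → ∀ i ≤ n c, y c i ∈ gC u v n y G := fun G h i hi =>
    gC_mem u v n y h hi
  -- collapsed cells
  have cac : ∀ j < n a, ∀ k < n c, ty a j = ty c k → T.1 (lo (y a) (y c) j k) (up (y a) (y c) j k) := by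
    intro j hj k hk he
    have h1 := hst a j hj
    have h2 := hst c k hk
    refine lift_nb hfree hab hbc (cl_lo (mA _ (by simp)) (mC _ (by simp)) hj hk)
      (cl_up (mA _ (by simp)) (mC _ (by simp)) hj hk) ?_ ?_
    · cases hk' : ty a j
      · rw [← he, hk'] at h2
        exact cell_rel' _ (hmono a) (at_hp_c hac hbc h2)
      · rw [hk'] at h1
        exact cell_rel _ (hmono c) (at_hp_a h1)
    · cases hk' : ty a j
      · rw [hk'] at h1
        exact cell_rel _ (hmono c) (at_hr_a h1)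
      · rw [← he, hk'] at h2
        exact cell_rel' _ (hmono a) (at_hr_c hac hbc h2)
  have cbc : ∀ j < n b, ∀ k < n c, ty b j = ty c k → T.1 (lo (y b) (y c) j k) (up (y b) (y c) j k) := by
    intro j hj k hk he
    have h1 := hst b j hj
    have h2 := hst c k hk
    refine lift_na hfree hab hac (cl_lo (mB _ (by simp)) (mC _ (by simp)) hj hk)
      (cl_up (mB _ (by simp)) (mC _ (by simp)) hj hk) ?_ ?_
    · cases hk' : ty b j
      · rw [← he, hk'] at h2
        exact cell_rel' _ (hmono b) (at_hp_c hac hbc h2)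
      · rw [hk'] at h1
        exact cell_rel _ (hmono c) (at_hp_b hab h1)
    · cases hk' : ty b j
      · rw [hk'] at h1
        exact cell_rel _ (hmono c) (at_hr_b hab h1)
      · rw [← he, hk'] at h2
        exact cell_rel' _ (hmono b) (at_hr_c hac hbc h2)
  have cab : ∀ j < n a, ∀ k < n b, ty a j = false → ty b k = true →
      T.1 (lo (y a) (y b) j k) (up (y a) (y b) j k) := by
    intro j hj k hk e1 e2
    have h1 := hst a j hj
    have h2 := hst b k hk
    rw [e1] at h1
    rw [e2] at h2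
    exact lift_nc hfree hac hbc (cl_lo (mA _ (by simp)) (mB _ (by simp)) hj hk)
      (cl_up (mA _ (by simp)) (mB _ (by simp)) hj hk)
      (cell_rel' _ (hmono a) (at_hp_b hab h2)) (cell_rel _ (hmono b) (at_ht_a h1))
      (cell_rel _ (hmono b) (at_hr_a h1))
  -- some cell of type true-false does not collapse
  have hex : ∃ j < n a, ∃ k < n b, ty a j = true ∧ ty b k = false ∧
      ¬ T.1 (lo (y a) (y b) j k) (up (y a) (y b) j k) := by
    by_contra hcon
    push Not at hcon
    apply not_Th_of φ huv (ht a b c)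
    have h1 : ∀ j < n a, (Th φ (ht a b c)).1 (y a j) (y a (j + 1)) := by
      intro j hj
      cases e1 : ty a j
      · have h2 := hst a j hj
        rw [e1] at h2
        exact at_ht_a h2
      · have h3 : ∀ k < n b, (Th φ (ht a b c)).1 (rf (y a) (y b) j k) (rf (y a) (y b) j (k + 1)) := by
          intro k hk
          apply rf_rel _ (hmono b)
          cases e2 : ty b k
          · exact down_nc hfree hac hbc (cl_lo (mA _ (by simp)) (mB _ (by simp)) hj hk)
              (cl_up (mA _ (by simp)) (mB _ (by simp)) hj hk) (hcon j hj k hk e1 e2)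
          · have h4 := hst b k hk
            rw [e2] at h4
            exact cell_rel' _ (hmono a) (at_ht_b hab h4)
        have h5 := rel_chain (Th φ (ht a b c)) (n b) h3
        have e0 : rf (y a) (y b) j 0 = y a j := by
          unfold rf
          rw [hy0 b]
          apply sup_eq_left.2
          rw [← hy0 a]
          exact inf_le_right.trans (hmono a (Nat.zero_le _))
        have en : rf (y a) (y b) j (n b) = y a (j + 1) := by
          unfold rf
          rw [hyn b, ← hyn a, inf_eq_left.2 (hmono a (by omega : j + 1 ≤ n a))]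
          exact sup_eq_right.2 (hmono a (Nat.le_succ _))
        rwa [e0, en] at h5
    have h2 := rel_chain (Th φ (ht a b c)) (n a) h1
    rwa [hy0 a, hyn a] at h2
  obtain ⟨j, hj, k, hk, e1, e2, hne⟩ := hex
  set S : Set K := latticeClosure ((gC u v n y {a, b, c} : Finset K) : Set K) with hSdef
  have hS : IsSublattice S := isSublattice_latticeClosure
  have hsub : ∀ x ∈ gC u v n y {a, b, c}, x ∈ S := fun x hx =>
    subset_latticeClosure (by exact_mod_cast hx)
  have chA : Ch S u v (n a) (y a) := ⟨hy0 a, hyn a, hmono a, fun i hi => hsub _ (mA _ (by simp) i hi)⟩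
  have chB : Ch S u v (n b) (y b) := ⟨hy0 b, hyn b, hmono b, fun i hi => hsub _ (mB _ (by simp) i hi)⟩
  have chC : Ch S u v (n c) (y c) := ⟨hy0 c, hyn c, hmono c, fun i hi => hsub _ (mC _ (by simp) i hi)⟩
  refine ⟨T, ((gC u v n y {a, b, c} : Finset K) : Set K), Finset.finite_toSet _,
    lo (y a) (y b) j k, mem_lo hS chA.mem chB.mem hj hk, up (y a) (y b) j k,
    mem_up hS chA.mem chB.mem hj hk, lo_le_up (hmono a) (hmono b) j k, hne, ?_⟩
  intro M _ _ hcon D d1 d2 d3
  exact cells_zero (r := T) hcon hS ⟨d1, d2, d3⟩ chA chB chC (ty a) (ty b) (ty c) cac cbc cab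
    j hj k hk e1 e2

end main

end Pool.Agent.Work.MP_b103ef_al_h93
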