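import Pool.Agent.Work.MP_b103ef_al_helper93.Base

set_option autoImplicit false

namespace Pool.Agent.Work.MP_b103ef_al_h93

open LCon

/-- Lattice polynomials with constants `o, i` as functions of the assignment `g : X → N5`. -/
inductive Poly {X : Type} : ((X → N5) → N5) → Prop
  | bot : Poly (fun _ => N5.o)
  | top : Poly (fun _ => N5.i)
  | proj (x : X) : Poly (fun g => g x)
  | sup {f g : (X → N5) → N5} : Poly f → Poly g → Poly (f ⊔ g)
  | inf {f g : (X → N5) → N5} : Poly f → Poly g → Poly (f ⊓ g)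

/-- The free bounded lattice on `X` in the variety generated by the pentagon. -/
def FL (X : Type) : Sublattice ((X → N5) → N5) where
  carrier := {f | Poly f}
  supClosed' := fun _ hf _ hg => Poly.sup hf hg
  infClosed' := fun _ hf _ hg => Poly.inf hf hg

variable {X : Type}

theorem Poly.supp {f : (X → N5) → N5} (hf : Poly f) :
    ∃ S : Finset X, ∀ g g' : X → N5, (∀ x ∈ S, g x = g' x) → f g = f g' := by
  classical
  induction hf with
  | bot => exact ⟨∅, fun _ _ _ => rfl⟩
  | top => exact ⟨∅, fun _ _ _ => rfl⟩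
  | proj x => exact ⟨{x}, fun g g' h => h x (by simp)⟩
  | sup _ _ ih ih' =>
    obtain ⟨S, hS⟩ := ih
    obtain ⟨S', hS'⟩ := ih'
    refine ⟨S ∪ S', fun g g' h => ?_⟩
    simp only [Pi.sup_apply]
    rw [hS g g' (fun x hx => h x (Finset.mem_union_left _ hx)),
      hS' g g' (fun x hx => h x (Finset.mem_union_right _ hx))]
  | inf _ _ ih ih' =>
    obtain ⟨S, hS⟩ := ih
    obtain ⟨S', hS'⟩ := ih'
    refine ⟨S ∪ S', fun g g' h => ?_⟩
    simp only [Pi.inf_apply]
    rw [hS g g' (fun x hx => h x (Finset.mem_union_left _ hx)),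
      hS' g g' (fun x hx => h x (Finset.mem_union_right _ hx))]

theorem Poly.hom {f : (X → N5) → N5} (hf : Poly f) (κ : N5 → N5) (ho : κ N5.o = N5.o)
    (hi : κ N5.i = N5.i) (hs : ∀ x y, κ (x ⊔ y) = κ x ⊔ κ y) (hm : ∀ x y, κ (x ⊓ y) = κ x ⊓ κ y)
    (g : X → N5) : f (fun x => κ (g x)) = κ (f g) := by
  induction hf with
  | bot => exact ho.symm
  | top => exact hi.symm
  | proj x => rfl
  | sup _ _ ih ih' => simp only [Pi.sup_apply]; rw [ih, ih', hs]
  | inf _ _ ih ih' => simp only [Pi.inf_apply]; rw [ih, ih', hm]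

theorem Poly.nb {f : (X → N5) → N5} (hf : Poly f) (g : X → N5) (hg : ∀ x, g x ≠ N5.b) :
    f g ≠ N5.b := by
  induction hf with
  | bot => simp
  | top => simp
  | proj x => exact hg x
  | sup _ _ ih ih' => exact N5.nb_sup _ _ ih ih'
  | inf _ _ ih ih' => exact N5.nb_inf _ _ ih ih'

theorem Poly.na {f : (X → N5) → N5} (hf : Poly f) (g : X → N5) (hg : ∀ x, g x ≠ N5.a) :
    f g ≠ N5.a := by
  induction hf with
  | bot => simp
  | top => simp
  | proj x => exact hg x
  | sup _ _ ih ih' => exact N5.na_sup _ _ ih ih'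
  | inf _ _ ih ih' => exact N5.na_inf _ _ ih ih'

theorem Poly.nc {f : (X → N5) → N5} (hf : Poly f) (g : X → N5) (hg : ∀ x, g x ≠ N5.c) :
    f g ≠ N5.c ∧ f (fun x => N5.tau (g x)) = N5.tau (f g) := by
  induction hf with
  | bot => exact ⟨by simp, rfl⟩
  | top => exact ⟨by simp, rfl⟩
  | proj x => exact ⟨hg x, rfl⟩
  | sup _ _ ih ih' =>
    refine ⟨N5.nc_sup _ _ ih.1 ih'.1, ?_⟩
    simp only [Pi.sup_apply]; rw [ih.2, ih'.2, N5.tau_sup _ _ ih.1 ih'.1]
  | inf _ _ ih ih' =>
    refine ⟨N5.nc_inf _ _ ih.1 ih'.1, ?_⟩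
    simp only [Pi.inf_apply]; rw [ih.2, ih'.2, N5.tau_inf _ _ ih.1 ih'.1]

theorem Poly.oi {f : (X → N5) → N5} (hf : Poly f) (g : X → N5) (hg : ∀ x, g x = N5.o ∨ g x = N5.i) :
    f g = N5.o ∨ f g = N5.i := by
  induction hf with
  | bot => simp
  | top => simp
  | proj x => exact hg x
  | sup _ _ ih ih' => exact N5.oi_sup _ _ ih ih'
  | inf _ _ ih ih' => exact N5.oi_inf _ _ ih ih'

/-- bottom, top and generators of the free lattice -/
def fbot (X : Type) : FL X := ⟨fun _ => N5.o, Poly.bot⟩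
def ftop (X : Type) : FL X := ⟨fun _ => N5.i, Poly.top⟩
def fgen (x : X) : FL X := ⟨fun g => g x, Poly.proj x⟩

theorem fbot_le (l : FL X) : fbot X ≤ l := by
  rw [← sup_eq_right]
  apply Subtype.ext
  funext g
  change N5.o ⊔ l.1 g = l.1 g
  generalize l.1 g = y
  revert y; decide

theorem le_ftop (l : FL X) : l ≤ ftop X := by
  rw [← sup_eq_right]
  apply Subtype.ext
  funext g
  change l.1 g ⊔ N5.i = N5.i
  generalize l.1 g = y
  revert y; decide

/-- Kernel of the evaluation at `g`. -/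
def kerE (g : X → N5) : LCon (FL X) :=
  ⟨fun l l' => l.1 g = l'.1 g, ⟨fun _ => rfl, fun h => h.symm, fun h h' => h.trans h'⟩,
    fun a b c d h h' => ⟨by
      change a.1 g ⊔ c.1 g = b.1 g ⊔ d.1 g
      rw [h, h'], by
      change a.1 g ⊓ c.1 g = b.1 g ⊓ d.1 g
      rw [h, h']⟩⟩

section transfer

variable {K : Type} [Lattice K] (φ : LCon (FL X) ≃o LCon K)

/-- The congruence of `K` that corresponds to the evaluation at `g`. -/
def Th (g : X → N5) : LCon K := φ (kerE g)

theorem exists_supp (s t : K) : ∃ S : Finset X,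
    (∀ g g' : X → N5, (∀ x ∈ S, g x = g' x) → (Th φ g).1 s t → (Th φ g').1 s t) ∧
    (∀ g : X → N5, (∀ x ∈ S, g x ≠ N5.b) → (Th φ (fun x => N5.pi (g x))).1 s t →
      (Th φ (fun x => N5.rho (g x))).1 s t → (Th φ g).1 s t) ∧
    (∀ g : X → N5, (∀ x ∈ S, g x ≠ N5.a) → (Th φ (fun x => N5.pi (g x))).1 s t →
      (Th φ (fun x => N5.rho (g x))).1 s t → (Th φ g).1 s t) ∧
    (∀ g : X → N5, (∀ x ∈ S, g x ≠ N5.c) → (Th φ (fun x => N5.pi (g x))).1 s t →
      (Th φ (fun x => N5.tau (g x))).1 s t →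
      (Th φ (fun x => N5.rho (g x))).1 s t → (Th φ g).1 s t) ∧
    (∀ g : X → N5, (∀ x ∈ S, g x ≠ N5.c) → (Th φ g).1 s t →
      (Th φ (fun x => N5.tau (g x))).1 s t) := by
  classical
  obtain ⟨E, hE⟩ := LCon.exists_finset φ s t
  have hfun : ∀ l : FL X, ∃ S : Finset X, ∀ g g' : X → N5, (∀ x ∈ S, g x = g' x) → l.1 g = l.1 g' :=
    fun l => Poly.supp l.2
  choose W hW using hfun
  set S : Finset X := E.biUnion (fun p => W p.1 ∪ W p.2) with hS
  have h1 : ∀ p ∈ E, ∀ g g' : X → N5, (∀ x ∈ S, g x = g' x) → p.1.1 g = p.1.1 g' ∧ p.2.1 g = p.2.1 g' := by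
    intro p hp g g' h
    refine ⟨hW p.1 g g' (fun x hx => h x ?_), hW p.2 g g' (fun x hx => h x ?_)⟩
    · rw [hS]; exact Finset.mem_biUnion.2 ⟨p, hp, Finset.mem_union_left _ hx⟩
    · rw [hS]; exact Finset.mem_biUnion.2 ⟨p, hp, Finset.mem_union_right _ hx⟩
  have hTh : ∀ g : X → N5, (Th φ g).1 s t ↔ ∀ p ∈ E, p.1.1 g = p.2.1 g := fun g => hE (kerE g)
  have hloc : ∀ g g' : X → N5, (∀ x ∈ S, g x = g' x) → (Th φ g).1 s t → (Th φ g').1 s t := by
    intro g g' h hg
    rw [hTh] at hg ⊢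
    intro p hp
    obtain ⟨e1, e2⟩ := h1 p hp g g' h
    rw [← e1, ← e2]; exact hg p hp
  -- truncation
  let tr : (X → N5) → (X → N5) := fun g x => if x ∈ S then g x else N5.o
  have htr : ∀ g : X → N5, ∀ x ∈ S, g x = tr g x := by
    intro g x hx; simp [tr, hx]
  have htrκ : ∀ (κ : N5 → N5) (_ : κ N5.o = N5.o) (g : X → N5), tr (fun x => κ (g x)) = fun x => κ (tr g x) := by
    intro κ hκ g
    funext x
    by_cases hx : x ∈ S
    · simp [tr, hx]
    · simp [tr, hx, hκ]
  refine ⟨S, hloc, ?_, ?_, ?_, ?_⟩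
  · intro g hg hp hr
    have hp' := hloc _ _ (htr _) hp
    have hr' := hloc _ _ (htr _) hr
    rw [htrκ _ rfl] at hp' hr'
    refine hloc _ _ (fun x hx => (htr g x hx).symm) ?_
    rw [hTh] at hp' hr' ⊢
    intro p hpE
    have hnb : ∀ x, tr g x ≠ N5.b := by
      intro x
      by_cases hx : x ∈ S
      · rw [← htr g x hx]; exact hg x hx
      · simp [tr, hx]
    have e1 := hp' p hpE
    have e2 := hr' p hpE
    rw [Poly.hom p.1.2 N5.pi rfl rfl N5.pi_sup N5.pi_inf, Poly.hom p.2.2 N5.pi rfl rfl N5.pi_sup N5.pi_inf] at e1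
    rw [Poly.hom p.1.2 N5.rho rfl rfl N5.rho_sup N5.rho_inf, Poly.hom p.2.2 N5.rho rfl rfl N5.rho_sup N5.rho_inf] at e2
    exact N5.sep_b _ _ (Poly.nb p.1.2 _ hnb) (Poly.nb p.2.2 _ hnb) e1 e2
  · intro g hg hp hr
    have hp' := hloc _ _ (htr _) hp
    have hr' := hloc _ _ (htr _) hr
    rw [htrκ _ rfl] at hp' hr'
    refine hloc _ _ (fun x hx => (htr g x hx).symm) ?_
    rw [hTh] at hp' hr' ⊢
    intro p hpE
    have hna : ∀ x, tr g x ≠ N5.a := by
      intro x
      by_cases hx : x ∈ S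
      · rw [← htr g x hx]; exact hg x hx
      · simp [tr, hx]
    have e1 := hp' p hpE
    have e2 := hr' p hpE
    rw [Poly.hom p.1.2 N5.pi rfl rfl N5.pi_sup N5.pi_inf, Poly.hom p.2.2 N5.pi rfl rfl N5.pi_sup N5.pi_inf] at e1
    rw [Poly.hom p.1.2 N5.rho rfl rfl N5.rho_sup N5.rho_inf, Poly.hom p.2.2 N5.rho rfl rfl N5.rho_sup N5.rho_inf] at e2
    exact N5.sep_a _ _ (Poly.na p.1.2 _ hna) (Poly.na p.2.2 _ hna) e1 e2
  · intro g hg hp ht hr
    have hp' := hloc _ _ (htr _) hp
    have ht' := hloc _ _ (htr _) ht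
    have hr' := hloc _ _ (htr _) hr
    rw [htrκ _ rfl] at hp' hr' ht'
    refine hloc _ _ (fun x hx => (htr g x hx).symm) ?_
    rw [hTh] at hp' hr' ht' ⊢
    intro p hpE
    have hnc : ∀ x, tr g x ≠ N5.c := by
      intro x
      by_cases hx : x ∈ S
      · rw [← htr g x hx]; exact hg x hx
      · simp [tr, hx]
    have e1 := hp' p hpE
    have e2 := hr' p hpE
    have e3 := ht' p hpE
    rw [Poly.hom p.1.2 N5.pi rfl rfl N5.pi_sup N5.pi_inf, Poly.hom p.2.2 N5.pi rfl rfl N5.pi_sup N5.pi_inf] at e1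
    rw [Poly.hom p.1.2 N5.rho rfl rfl N5.rho_sup N5.rho_inf, Poly.hom p.2.2 N5.rho rfl rfl N5.rho_sup N5.rho_inf] at e2
    rw [(Poly.nc p.1.2 _ hnc).2, (Poly.nc p.2.2 _ hnc).2] at e3
    exact N5.sep_c _ _ (Poly.nc p.1.2 _ hnc).1 (Poly.nc p.2.2 _ hnc).1 e1 e3 e2
  · intro g hg h
    have h' := hloc _ _ (htr _) h
    have hnc : ∀ x, tr g x ≠ N5.c := by
      intro x
      by_cases hx : x ∈ S
      · rw [← htr g x hx]; exact hg x hx
      · simp [tr, hx]
    refine hloc _ _ (fun x hx => (htr (fun x => N5.tau (g x)) x hx).symm) ?_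
    rw [htrκ _ rfl]
    rw [hTh] at h' ⊢
    intro p hpE
    rw [(Poly.nc p.1.2 _ hnc).2, (Poly.nc p.2.2 _ hnc).2, h' p hpE]

/-- A finite support of a pair of elements of `K`. -/
noncomputable def supp (s t : K) : Finset X := (exists_supp φ s t).choose

variable {φ}

theorem supp_loc {s t : K} {g g' : X → N5} (h : ∀ x ∈ supp φ s t, g x = g' x)
    (hg : (Th φ g).1 s t) : (Th φ g').1 s t :=
  (exists_supp φ s t).choose_spec.1 g g' h hg

theorem supp_nb {s t : K} {g : X → N5} (h : ∀ x ∈ supp φ s t, g x ≠ N5.b)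
    (hp : (Th φ (fun x => N5.pi (g x))).1 s t) (hr : (Th φ (fun x => N5.rho (g x))).1 s t) :
    (Th φ g).1 s t :=
  (exists_supp φ s t).choose_spec.2.1 g h hp hr

theorem supp_na {s t : K} {g : X → N5} (h : ∀ x ∈ supp φ s t, g x ≠ N5.a)
    (hp : (Th φ (fun x => N5.pi (g x))).1 s t) (hr : (Th φ (fun x => N5.rho (g x))).1 s t) :
    (Th φ g).1 s t :=
  (exists_supp φ s t).choose_spec.2.2.1 g h hp hr

theorem supp_nc {s t : K} {g : X → N5} (h : ∀ x ∈ supp φ s t, g x ≠ N5.c)
    (hp : (Th φ (fun x => N5.pi (g x))).1 s t) (ht : (Th φ (fun x => N5.tau (g x))).1 s t)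
    (hr : (Th φ (fun x => N5.rho (g x))).1 s t) :
    (Th φ g).1 s t :=
  (exists_supp φ s t).choose_spec.2.2.2.1 g h hp ht hr

theorem supp_tau {s t : K} {g : X → N5} (h : ∀ x ∈ supp φ s t, g x ≠ N5.c)
    (hg : (Th φ g).1 s t) : (Th φ (fun x => N5.tau (g x))).1 s t :=
  (exists_supp φ s t).choose_spec.2.2.2.2 g h hg

variable (φ)

include φ in
/-- An interval `[u, v]` of `K` that generates the full congruence. -/
theorem exists_uv : ∃ u v : K, u ≤ v ∧ (∀ ψ : LCon K, ψ.1 u v → ∀ s t, ψ.1 s t) := by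
  classical
  obtain ⟨E, hE⟩ := LCon.exists_finset φ.symm (fbot X) (ftop X)
  have hfull : ∀ ψ : LCon K, (φ.symm ψ).1 (fbot X) (ftop X) → ∀ s t, ψ.1 s t := by
    intro ψ h
    have h1 : φ.symm ψ = LCon.full (FL X) := by
      rw [LCon.eq_full_iff]
      intro l l'
      exact (φ.symm ψ).mid_mid h (fbot_le l) (le_ftop l) (fbot_le l') (le_ftop l')
    have h2 : ψ = LCon.full K := by
      rw [← LCon.map_full φ, ← h1, φ.apply_symm_apply]
    rw [h2]
    intro s t; trivial
  have hne : E.Nonempty := by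
    rw [Finset.nonempty_iff_ne_empty]
    rintro rfl
    have h := (hE (φ (kerE (fun _ => N5.o)))).2 (by simp)
    rw [φ.symm_apply_apply] at h
    exact absurd h (by intro h; exact absurd (show N5.o = N5.i from h) (by decide))
  obtain ⟨p0, hp0⟩ := hne
  have : Nonempty K := ⟨p0.1⟩
  obtain ⟨u, hu⟩ := (E.image Prod.fst ∪ E.image Prod.snd).bddBelow
  obtain ⟨v, hv⟩ := (E.image Prod.fst ∪ E.image Prod.snd).bddAbove
  have m1 : ∀ p ∈ E, p.1 ∈ (E.image Prod.fst ∪ E.image Prod.snd) := fun p hp =>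
    Finset.mem_union_left _ (Finset.mem_image_of_mem _ hp)
  have m2 : ∀ p ∈ E, p.2 ∈ (E.image Prod.fst ∪ E.image Prod.snd) := fun p hp =>
    Finset.mem_union_right _ (Finset.mem_image_of_mem _ hp)
  refine ⟨u, v, le_trans (hu (m1 p0 hp0)) (hv (m1 p0 hp0)), ?_⟩
  intro ψ h
  apply hfull
  rw [hE]
  intro p hp
  exact ψ.mid_mid h (hu (m1 p hp)) (hv (m1 p hp)) (hu (m2 p hp)) (hv (m2 p hp))

theorem not_Th_of {u v : K} (huv : ∀ ψ : LCon K, ψ.1 u v → ∀ s t, ψ.1 s t) (g : X → N5) :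
    ¬ (Th φ g).1 u v := by
  intro h
  have h1 := huv _ h
  have h2 : Th φ g = LCon.full K := (LCon.eq_full_iff _).2 h1
  have h3 : kerE g = LCon.full (FL X) := by
    have := congrArg φ.symm h2
    rw [← LCon.map_full φ] at this
    simpa [Th] using this
  have h4 : (kerE g).1 (fbot X) (ftop X) := by rw [h3]; trivial
  exact absurd (show N5.o = N5.i from h4) (by decide)

/-- the value of a step type: `false` is a step of `con(0,x)`, `true` a step of `con(x,1)` -/
def val : Bool → N5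
  | false => N5.o
  | true => N5.i

/-- The two congruences attached to a generator. -/
def Pc (x : X) : Bool → LCon K
  | false => φ (LCon.gen {(fbot X, fgen x)})
  | true => φ (LCon.gen {(fgen x, ftop X)})

theorem Pc_le (x : X) (κ : Bool) (g : X → N5) (hg : g x = val κ) : Pc φ x κ ≤ Th φ g := by
  cases κ with
  | false =>
    apply φ.monotone
    rw [LCon.gen_le]
    intro p hp
    rw [Set.mem_singleton_iff] at hp
    subst hp
    exact hg.symm
  | true =>
    apply φ.monotone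
    rw [LCon.gen_le]
    intro p hp
    rw [Set.mem_singleton_iff] at hp
    subst hp
    exact hg

theorem Pc_join (x : X) (η : LCon K) (h0 : Pc φ x false ≤ η) (h1 : Pc φ x true ≤ η) :
    ∀ s t, η.1 s t := by
  have e0 := LCon.gen_le.1 ((φ.le_symm_apply).2 h0) (fbot X, fgen x) rfl
  have e1 := LCon.gen_le.1 ((φ.le_symm_apply).2 h1) (fgen x, ftop X) rfl
  have e2 := (φ.symm η).trans e0 e1
  have h1 : φ.symm η = LCon.full (FL X) := by
    rw [LCon.eq_full_iff]
    intro l l'
    exact (φ.symm η).mid_mid e2 (fbot_le l) (le_ftop l) (fbot_le l') (le_ftop l')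
  have h2 : η = LCon.full K := by
    rw [← LCon.map_full φ, ← h1, φ.apply_symm_apply]
  rw [h2]
  intro s t; trivial

/-- Increasing finite chains with steps in `con(0,x)` or `con(x,1)`. -/
theorem exists_chain (x : X) {u v : K} (huv : u ≤ v) : ∃ (n : ℕ) (y : ℕ → K) (ty : ℕ → Bool),
    y 0 = u ∧ y n = v ∧ Monotone y ∧
    ∀ i < n, (Pc φ x (ty i)).1 (y i) (y (i + 1)) := by
  classical
  let R : K → K → Prop := fun s t => ∃ κ, (Pc φ x κ).1 s t
  have hsup : ∀ s t w, Relation.ReflTransGen R s t → Relation.ReflTransGen R (s ⊔ w) (t ⊔ w) := by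
    intro s t w h
    induction h with
    | refl => exact Relation.ReflTransGen.refl
    | tail _ h2 ih =>
      obtain ⟨κ, hκ⟩ := h2
      exact ih.tail ⟨κ, (Pc φ x κ).sup_right w hκ⟩
  have hinf : ∀ s t w, Relation.ReflTransGen R s t → Relation.ReflTransGen R (s ⊓ w) (t ⊓ w) := by
    intro s t w h
    induction h with
    | refl => exact Relation.ReflTransGen.refl
    | tail _ h2 ih =>
      obtain ⟨κ, hκ⟩ := h2
      exact ih.tail ⟨κ, (Pc φ x κ).inf_right w hκ⟩
  let J : LCon K := ⟨Relation.ReflTransGen R, ⟨fun _ => Relation.ReflTransGen.refl, by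
      intro s t h
      induction h with
      | refl => exact Relation.ReflTransGen.refl
      | tail _ h2 ih =>
        obtain ⟨κ, hκ⟩ := h2
        exact (Relation.ReflTransGen.single ⟨κ, (Pc φ x κ).symm hκ⟩).trans ih,
      fun h h' => h.trans h'⟩,
    fun a b c d h h' => ⟨(hsup a b c h).trans (by
        have := hsup c d b h'
        rwa [sup_comm c b, sup_comm d b] at this),
      (hinf a b c h).trans (by
        have := hinf c d b h'
        rwa [inf_comm c b, inf_comm d b] at this)⟩⟩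
  have hJ : J.1 u v := Pc_join φ x J
    (fun s t h => Relation.ReflTransGen.single ⟨false, h⟩)
    (fun s t h => Relation.ReflTransGen.single ⟨true, h⟩) u v
  have key : ∀ w, Relation.ReflTransGen R u w → ∃ (n : ℕ) (y : ℕ → K) (ty : ℕ → Bool),
      y 0 = u ∧ w ≤ y n ∧ Monotone y ∧ ∀ i < n, (Pc φ x (ty i)).1 (y i) (y (i + 1)) := by
    intro w h
    induction h with
    | refl => exact ⟨0, fun _ => u, fun _ => false, rfl, le_refl _, fun _ _ _ => le_refl _, by simp⟩
    | @tail w w' _ h2 ih =>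
      obtain ⟨κ, hκ⟩ := h2
      obtain ⟨n, y, ty, hy0, hyn, hmono, hst⟩ := ih
      refine ⟨n + 1, fun i => if i ≤ n then y i else y n ⊔ w', fun i => if i < n then ty i else κ,
        ?_, ?_, ?_, ?_⟩
      · simp [hy0]
      · simp
      · apply monotone_nat_of_le_succ
        intro i
        by_cases h1 : i + 1 ≤ n
        · simp only [h1, (by omega : i ≤ n), if_true]
          exact hmono (Nat.le_succ i)
        · by_cases h2 : i ≤ n
          · have : i = n := by omega
            subst this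
            simp
          · simp [h1, h2]
      · intro i hi
        by_cases h1 : i < n
        · simp only [h1, (by omega : i ≤ n), (by omega : i + 1 ≤ n), if_true]
          exact hst i h1
        · have : i = n := by omega
          subst this
          have h3 := (Pc φ x κ).sup_left (y i) hκ
          rw [sup_eq_left.2 hyn] at h3
          have e1 : (if i < i then ty i else κ) = κ := if_neg (lt_irrefl i)
          have e2 : (if i ≤ i then y i else y i ⊔ w') = y i := if_pos (le_refl i)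
          have e3 : (if i + 1 ≤ i then y (i + 1) else y i ⊔ w') = y i ⊔ w' := if_neg (by omega)
          change (Pc φ x (if i < i then ty i else κ)).1 (if i ≤ i then y i else y i ⊔ w')
            (if i + 1 ≤ i then y (i + 1) else y i ⊔ w')
          rw [e1, e2, e3]
          exact h3
  obtain ⟨n, y, ty, hy0, hyn, hmono, hst⟩ := key v hJ
  refine ⟨n, fun i => y i ⊓ v, ty, ?_, ?_, ?_, ?_⟩
  · simp [hy0, huv]
  · simp [hyn]
  · intro i j hij
    exact inf_le_inf_right v (hmono hij)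
  · intro i hi
    exact (Pc φ x (ty i)).inf_right v (hst i hi)

end transfer

end Pool.Agent.Work.MP_b103ef_al_h93
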