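import Mathlib

set_option autoImplicit false

namespace Pool.Agent.Work.MP_b103ef_al_h93

open Cardinal

/-- Kuratowski's free set theorem for set mappings with finite values. -/
theorem exists_free (k : ℕ) : ∀ {X : Type} (Y : Set X), aleph (k : Ordinal) ≤ #Y →
    ∀ S : Finset X → Finset X,
      ∃ H : Finset X, (∀ y ∈ H, y ∈ Y) ∧ H.card = k + 1 ∧ ∀ y ∈ H, ∀ G, G = (by classical exact H.erase y) → y ∉ S G := by
  classical
  induction k with
  | zero =>
    intro X Y hY S
    rw [Nat.cast_zero, aleph_zero] at hY
    have hinf : Infinite Y := Cardinal.aleph0_le_mk_iff.1 hY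
    have h2 : Y.Infinite := Set.infinite_coe_iff.1 hinf
    obtain ⟨x, hx, hx'⟩ := (h2.sdiff (S ∅).finite_toSet).nonempty
    refine ⟨{x}, by simpa using hx, by simp, ?_⟩
    intro y hy G hG
    rw [Finset.mem_singleton] at hy
    subst hy
    have : G = ∅ := by
      rw [hG]
      ext z
      simp
    rw [this]
    simpa using hx'
  | succ k ih =>
    intro X Y hY S
    have hlt : aleph (k : Ordinal) < aleph ((k + 1 : ℕ) : Ordinal) := by
      rw [aleph_lt_aleph]
      exact_mod_cast Nat.lt_succ_self k
    obtain ⟨Z, hZY, hZ⟩ := Cardinal.le_mk_iff_exists_subset.1 (hlt.le.trans hY)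
    have hZinf : Infinite Z := by
      rw [← Cardinal.aleph0_le_mk_iff, hZ]; exact aleph0_le_aleph _
    let f : Finset Z → Set X := fun G => ↑(S (G.map (Function.Embedding.subtype _)))
    have hC : #(⋃ G, f G : Set X) ≤ aleph (k : Ordinal) := by
      refine (Cardinal.mk_iUnion_le f).trans ?_
      have h1 : (⨆ i, #(f i)) ≤ ℵ₀ := by
        apply ciSup_le'
        intro i
        exact (Cardinal.mk_le_aleph0_iff.2 ((S _).finite_toSet.countable.to_subtype))
      have h2 : #(Finset Z) = #Z := Cardinal.mk_finset_of_infinite Z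
      rw [h2, hZ]
      calc aleph (k : Ordinal) * (⨆ i, #(f i)) ≤ aleph (k : Ordinal) * ℵ₀ := mul_le_mul_right h1 _
        _ = aleph (k : Ordinal) := Cardinal.mul_aleph0_eq (aleph0_le_aleph _)
    have hCZ : #((⋃ G, f G) ∪ Z : Set X) ≤ aleph (k : Ordinal) := by
      refine (Cardinal.mk_union_le _ _).trans ?_
      rw [hZ]
      exact Cardinal.add_le_of_le (aleph0_le_aleph _) hC le_rfl
    have hex : ∃ x ∈ Y, x ∉ ((⋃ G, f G) ∪ Z : Set X) := by
      by_contra hcon
      push Not at hcon
      have h3 : #Y ≤ #((⋃ G, f G) ∪ Z : Set X) := Cardinal.mk_le_mk_of_subset hcon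
      exact absurd (hY.trans (h3.trans hCZ)) (not_le.2 hlt)
    obtain ⟨x, hxY, hx⟩ := hex
    rw [Set.mem_union, not_or] at hx
    obtain ⟨hxC, hxZ⟩ := hx
    obtain ⟨H, hHZ, hHc, hH⟩ := ih Z hZ.ge (fun G => S (insert x G))
    have hxH : x ∉ H := fun h => hxZ (hHZ x h)
    refine ⟨insert x H, ?_, ?_, ?_⟩
    · intro y hy
      rcases Finset.mem_insert.1 hy with rfl | h
      · exact hxY
      · exact hZY (hHZ y h)
    · rw [Finset.card_insert_of_notMem hxH, hHc]
    · intro y hy G hG
      rcases Finset.mem_insert.1 hy with rfl | h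
      · have hG' : G = H := by
          rw [hG]
          ext z
          simp only [Finset.mem_erase, Finset.mem_insert]
          constructor
          · rintro ⟨h1, h2⟩
            exact h2.resolve_left h1
          · intro h
            exact ⟨fun e => hxH (e ▸ h), Or.inr h⟩
        rw [hG']
        intro hyS
        apply hxC
        rw [Set.mem_iUnion]
        refine ⟨H.subtype (· ∈ Z), ?_⟩
        change y ∈ S ((H.subtype (· ∈ Z)).map (Function.Embedding.subtype _))
        rw [Finset.subtype_map_of_mem hHZ]
        exact hyS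
      · have hne : x ≠ y := fun e => hxH (e ▸ h)
        have hG' : G = insert x (H.erase y) := by
          rw [hG]
          ext z
          simp only [Finset.mem_erase, Finset.mem_insert]
          constructor
          · rintro ⟨h1, h2 | h2⟩
            · exact Or.inl h2
            · exact Or.inr ⟨h1, h2⟩
          · rintro (h1 | ⟨h1, h2⟩)
            · exact ⟨h1 ▸ hne, Or.inl h1⟩
            · exact ⟨h1, Or.inr h2⟩
        rw [hG']
        have := hH y h (H.erase y) (by congr)
        exact this

end Pool.Agent.Work.MP_b103ef_al_h93
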