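import Pool.Agent.Work.MP_b103ef_al_helper93.Setup

set_option autoImplicit false

namespace Pool.Agent.Work.MP_b103ef_al_h93

open LCon Cardinal

section

variable {K : Type} [Lattice K]

open Classical in
/-- The number of steps of `f` of index less than `n` that are not in `ψ`. -/
noncomputable def cnt (ψ : LCon K) (f : ℕ → K) (n : ℕ) : ℕ :=
  ((Finset.range n).filter (fun i => ¬ ψ.1 (f i) (f (i + 1)))).card

/-- Every finite increasing sequence in `[x, y]` has at most `N` steps outside `ψ`. -/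
def BD (ψ : LCon K) (x y : K) (N : ℕ) : Prop :=
  ∀ (f : ℕ → K) (n : ℕ), (∀ i < n, f i ≤ f (i + 1)) → (∀ i ≤ n, x ≤ f i ∧ f i ≤ y) →
    cnt ψ f n ≤ N

theorem BD.mono {ψ : LCon K} {x y x' y' : K} {N : ℕ} (h : BD ψ x y N) (hx : x ≤ x') (hy : y' ≤ y) :
    BD ψ x' y' N :=
  fun f n h1 h2 => h f n h1 (fun i hi => ⟨hx.trans (h2 i hi).1, (h2 i hi).2.trans hy⟩)

theorem BD.mono_right {ψ : LCon K} {x y : K} {N N' : ℕ} (h : BD ψ x y N) (hN : N ≤ N') :
    BD ψ x y N' := fun f n h1 h2 => (h f n h1 h2).trans hN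

theorem cnt_mono_of {ψ : LCon K} {f g : ℕ → K} {n : ℕ}
    (h : ∀ i < n, ψ.1 (g i) (g (i + 1)) → ψ.1 (f i) (f (i + 1))) : cnt ψ f n ≤ cnt ψ g n := by
  classical
  unfold cnt
  apply Finset.card_le_card
  intro i hi
  simp only [Finset.mem_filter, Finset.mem_range] at hi ⊢
  exact ⟨hi.1, fun h' => hi.2 (h i hi.1 h')⟩

theorem BD_zero {ψ : LCon K} {x y : K} (h : ψ.1 x y) : BD ψ x y 0 := by
  classical
  intro f n _ h2
  unfold cnt
  rw [Nat.le_zero, Finset.card_eq_zero, Finset.filter_eq_empty_iff]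
  intro i hi
  rw [Finset.mem_range] at hi
  rw [not_not]
  have a1 := h2 i (by omega)
  have a2 := h2 (i + 1) (by omega)
  exact ψ.mid_mid h a1.1 a1.2 a2.1 a2.2

theorem BD_prime {ψ : LCon K} {p q : K} (h : ∀ z, p ≤ z → z ≤ q → ψ.1 p z ∨ ψ.1 z q) :
    BD ψ p q 1 := by
  classical
  intro f n h1 h2
  unfold cnt
  rw [Finset.card_le_one]
  have hmono : ∀ i j, i ≤ j → j ≤ n → f i ≤ f j := by
    intro i j hij
    induction j, hij using Nat.le_induction with
    | base => intro _; exact le_refl _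
    | succ j hj ih => intro hjn; exact (ih (by omega)).trans (h1 j (by omega))
  have key : ∀ i j, i < j → j < n → ¬ ψ.1 (f i) (f (i + 1)) → ψ.1 (f j) (f (j + 1)) := by
    intro i j hij hj hi
    have b1 := h2 i (by omega)
    have b2 := h2 (i + 1) (by omega)
    have b3 := h2 j (by omega)
    have b4 := h2 (j + 1) (by omega)
    rcases h (f (i + 1)) b2.1 b2.2 with h3 | h3
    · exact absurd (ψ.mid_mid h3 b1.1 (h1 i (by omega)) b2.1 (le_refl _)) hi
    · exact ψ.mid_mid h3 (hmono (i + 1) j hij (by omega)) b3.2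
        (hmono (i + 1) (j + 1) (by omega) (by omega)) b4.2
  intro i hi j hj
  simp only [Finset.mem_filter, Finset.mem_range] at hi hj
  rcases lt_trichotomy i j with h3 | h3 | h3
  · exact absurd (key i j h3 hj.1 hi.2) hj.2
  · exact h3
  · exact absurd (key j i h3 hi.1 hj.2) hi.2

variable [IsModularLattice K]

theorem step_split (ψ : LCon K) {p q y : K} (h : p ≤ q) (h1 : ψ.1 (p ⊓ y) (q ⊓ y))
    (h2 : ψ.1 (p ⊔ y) (q ⊔ y)) : ψ.1 p q := by
  rw [← mk_eq] at h1 h2 ⊢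
  rw [mk_inf, mk_inf] at h1
  rw [mk_sup, mk_sup] at h2
  exact mod_cancel (z := ψ.mk y) (mk_mono ψ h) h1.ge h2.ge

theorem BD.trans {ψ : LCon K} {x y z : K} {N N' : ℕ} (hxy : x ≤ y) (hyz : y ≤ z)
    (h : BD ψ x y N) (h' : BD ψ y z N') : BD ψ x z (N + N') := by
  classical
  intro f n h1 h2
  have c1 := h (fun i => f i ⊓ y) n (fun i hi => inf_le_inf_right _ (h1 i hi))
    (fun i hi => ⟨le_inf (h2 i hi).1 hxy, inf_le_right⟩)
  have c2 := h' (fun i => f i ⊔ y) n (fun i hi => sup_le_sup_right (h1 i hi) _)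
    (fun i hi => ⟨le_sup_right, sup_le (h2 i hi).2 hyz⟩)
  refine le_trans ?_ (Nat.add_le_add c1 c2)
  unfold cnt
  refine le_trans (Finset.card_le_card ?_) (Finset.card_union_le _ _)
  intro i hi
  simp only [Finset.mem_filter, Finset.mem_range, Finset.mem_union] at hi ⊢
  by_contra hcon
  push Not at hcon
  exact hi.2 (step_split ψ (h1 i hi.1) (hcon.1 hi.1) (hcon.2 hi.1))

theorem BD.sup {ψ : LCon K} {p q : K} {N : ℕ} (h : BD ψ p q N) (hpq : p ≤ q) (z : K) :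
    BD ψ (p ⊔ z) (q ⊔ z) N := by
  intro f n h1 h2
  refine le_trans ?_ (h (fun i => f i ⊓ q) n (fun i hi => inf_le_inf_right _ (h1 i hi))
    (fun i hi => ⟨le_inf (le_sup_left.trans (h2 i hi).1) hpq, inf_le_right⟩))
  apply cnt_mono_of
  intro i hi hψ
  have e : ∀ j ≤ n, f j = z ⊔ (f j ⊓ q) := by
    intro j hj
    have a1 : z ≤ f j := le_sup_right.trans (h2 j hj).1
    have a2 : f j ≤ z ⊔ q := by rw [sup_comm]; exact (h2 j hj).2
    calc f j = (z ⊔ q) ⊓ f j := (inf_eq_right.2 a2).symm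
      _ = z ⊔ q ⊓ f j := sup_inf_assoc_of_le q a1
      _ = z ⊔ (f j ⊓ q) := by rw [inf_comm]
  rw [e i (by omega), e (i + 1) (by omega)]
  exact ψ.sup_left z hψ

theorem BD.inf {ψ : LCon K} {p q : K} {N : ℕ} (h : BD ψ p q N) (hpq : p ≤ q) (z : K) :
    BD ψ (p ⊓ z) (q ⊓ z) N := by
  intro f n h1 h2
  refine le_trans ?_ (h (fun i => f i ⊔ p) n (fun i hi => sup_le_sup_right (h1 i hi) _)
    (fun i hi => ⟨le_sup_right, sup_le ((h2 i hi).2.trans inf_le_left) hpq⟩))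
  apply cnt_mono_of
  intro i hi hψ
  have e : ∀ j ≤ n, f j = (f j ⊔ p) ⊓ z := by
    intro j hj
    have a1 : f j ≤ z := (h2 j hj).2.trans inf_le_right
    have a2 : p ⊓ z ≤ f j := (h2 j hj).1
    calc f j = f j ⊔ p ⊓ z := (sup_eq_left.2 a2).symm
      _ = (f j ⊔ p) ⊓ z := (sup_inf_assoc_of_le p a1).symm
  rw [e i (by omega), e (i + 1) (by omega)]
  exact ψ.inf_right z hψ

/-- The congruence of finite distance modulo `ψ`. -/
def fin (ψ : LCon K) : LCon K :=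
  ⟨fun x y => ∃ N, BD ψ (x ⊓ y) (x ⊔ y) N,
    ⟨fun x => ⟨0, BD_zero (by rw [inf_idem, sup_idem]; exact ψ.refl x)⟩,
      fun {x y} ⟨N, h⟩ => ⟨N, by rw [inf_comm, sup_comm]; exact h⟩,
      fun {x y z} ⟨N, h⟩ ⟨N', h'⟩ => by
        have a1 : BD ψ (x ⊓ y ⊓ z) (y ⊓ z) N := by
          have := (h.mono (le_refl _) (le_sup_right : y ≤ x ⊔ y)).inf inf_le_right z
          exact this
        have a2 : BD ψ (y ⊓ z) (y ⊔ z) N' := h'
        have a3 : BD ψ (y ⊔ z) (x ⊔ y ⊔ z) N :=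
          (h.mono (inf_le_right : x ⊓ y ≤ y) (le_refl _)).sup le_sup_right z
        have a4 := (a1.trans (inf_le_inf_right z inf_le_right) inf_le_sup a2).trans
          ((inf_le_inf_right z inf_le_right).trans inf_le_sup)
          (sup_le_sup_right le_sup_right z) a3
        exact ⟨_, a4.mono (inf_le_inf_right z inf_le_left) (sup_le_sup_right le_sup_left z)⟩⟩,
    fun a b c d ⟨N, h⟩ ⟨N', h'⟩ => by
      constructor
      · have a1 : BD ψ (a ⊓ b ⊔ c) (a ⊔ b ⊔ c) N := h.sup inf_le_sup c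
        have a2 : BD ψ (c ⊓ d ⊔ b) (c ⊔ d ⊔ b) N' := h'.sup inf_le_sup b
        have b1 : BD ψ (a ⊓ b ⊔ c ⊓ d) (a ⊓ b ⊔ (c ⊔ d)) N' := by
          have := h'.sup inf_le_sup (a ⊓ b)
          rwa [sup_comm (c ⊓ d), sup_comm (c ⊔ d)] at this
        have b2 : BD ψ (a ⊓ b ⊔ (c ⊔ d)) (a ⊔ b ⊔ (c ⊔ d)) N := h.sup inf_le_sup (c ⊔ d)
        have b3 := b1.trans (sup_le_sup_left inf_le_sup _) (sup_le_sup_right inf_le_sup _) b2
        refine ⟨_, b3.mono ?_ ?_⟩
        · exact le_inf (sup_le_sup inf_le_left inf_le_left) (sup_le_sup inf_le_right inf_le_right)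
        · exact sup_le (sup_le_sup le_sup_left le_sup_left) (sup_le_sup le_sup_right le_sup_right)
      · have b1 : BD ψ (a ⊓ b ⊓ (c ⊓ d)) (a ⊓ b ⊓ (c ⊔ d)) N' := by
          have := h'.inf inf_le_sup (a ⊓ b)
          rwa [inf_comm (c ⊓ d), inf_comm (c ⊔ d)] at this
        have b2 : BD ψ (a ⊓ b ⊓ (c ⊔ d)) ((a ⊔ b) ⊓ (c ⊔ d)) N := h.inf inf_le_sup (c ⊔ d)
        have b3 := b1.trans (inf_le_inf_left _ inf_le_sup) (inf_le_inf_right _ inf_le_sup) b2
        refine ⟨_, b3.mono ?_ ?_⟩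
        · exact le_inf (inf_le_inf inf_le_left inf_le_left) (inf_le_inf inf_le_right inf_le_right)
        · exact sup_le (inf_le_inf le_sup_left le_sup_left) (inf_le_inf le_sup_right le_sup_right)⟩

/-- In a simple quotient with a prime interval all intervals have finite length. -/
theorem exists_BD {ψ : LCon K} (hmax : ∀ η : LCon K, ψ ≤ η → η = ψ ∨ ∀ s t, η.1 s t)
    {p q : K} (hpq : p ≤ q) (hn : ¬ ψ.1 p q) (h : ∀ z, p ≤ z → z ≤ q → ψ.1 p z ∨ ψ.1 z q)
    {x y : K} (hxy : x ≤ y) : ∃ N, BD ψ x y N := by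
  have h1 : ψ ≤ fin ψ := by
    intro s t hst
    refine ⟨0, BD_zero ?_⟩
    have e1 : ψ.1 (s ⊓ t) t := by
      have := ψ.inf_right t hst
      rwa [inf_idem] at this
    have e2 : ψ.1 (s ⊔ t) t := by
      have := ψ.sup_right t hst
      rwa [sup_idem] at this
    exact ψ.trans e1 (ψ.symm e2)
  rcases hmax (fin ψ) h1 with h2 | h2
  · exfalso
    apply hn
    rw [← h2]
    refine ⟨1, ?_⟩
    rw [inf_eq_left.2 hpq, sup_eq_right.2 hpq]
    exact BD_prime h
  · obtain ⟨N, hN⟩ := h2 x y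
    rw [inf_eq_left.2 hxy, sup_eq_right.2 hxy] at hN
    exact ⟨N, hN⟩

end

end Pool.Agent.Work.MP_b103ef_al_h93
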