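import Pool.Agent.Work.MP_b103ef_al_helper93.Base

set_option autoImplicit false

namespace Pool.Agent.Work.MP_b103ef_al_h93

namespace LCon

variable {K : Type*} [Lattice K]

/-- The setoid of a congruence. -/
def sd (r : LCon K) : Setoid K := ⟨r.1, r.2.1⟩

/-- The quotient lattice. -/
def Qt (r : LCon K) : Type _ := Quotient r.sd

/-- The projection. -/
def mk (r : LCon K) (x : K) : Qt r := Quotient.mk r.sd x

theorem mk_eq (r : LCon K) {x y : K} : r.mk x = r.mk y ↔ r.1 x y := by
  constructor
  · intro h; exact Quotient.exact h
  · intro h; exact Quotient.sound h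

/-- join and meet of the quotient -/
abbrev maxQ (r : LCon K) : Max (Qt r) :=
  ⟨Quotient.map₂ (· ⊔ ·) (fun _ _ h _ _ h' => r.sup h h')⟩
abbrev minQ (r : LCon K) : Min (Qt r) :=
  ⟨Quotient.map₂ (· ⊓ ·) (fun _ _ h _ _ h' => r.inf h h')⟩

instance instLatticeQ (r : LCon K) : Lattice (Qt r) := @Lattice.mk' _ (maxQ r) (minQ r)
  (by
    intro a b
    induction a using Quotient.inductionOn with | _ a => ?_
    induction b using Quotient.inductionOn with | _ b => ?_
    exact congrArg r.mk (sup_comm a b))
  (by
    intro a b c
    induction a using Quotient.inductionOn with | _ a => ?_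
    induction b using Quotient.inductionOn with | _ b => ?_
    induction c using Quotient.inductionOn with | _ c => ?_
    exact congrArg r.mk (sup_assoc a b c))
  (by
    intro a b
    induction a using Quotient.inductionOn with | _ a => ?_
    induction b using Quotient.inductionOn with | _ b => ?_
    exact congrArg r.mk (inf_comm a b))
  (by
    intro a b c
    induction a using Quotient.inductionOn with | _ a => ?_
    induction b using Quotient.inductionOn with | _ b => ?_
    induction c using Quotient.inductionOn with | _ c => ?_
    exact congrArg r.mk (inf_assoc a b c))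
  (by
    intro a b
    induction a using Quotient.inductionOn with | _ a => ?_
    induction b using Quotient.inductionOn with | _ b => ?_
    exact congrArg r.mk (sup_inf_self (a := a) (b := b)))
  (by
    intro a b
    induction a using Quotient.inductionOn with | _ a => ?_
    induction b using Quotient.inductionOn with | _ b => ?_
    exact congrArg r.mk (inf_sup_self (a := a) (b := b)))

theorem mk_sup (r : LCon K) (x y : K) : r.mk (x ⊔ y) = r.mk x ⊔ r.mk y := rfl
theorem mk_inf (r : LCon K) (x y : K) : r.mk (x ⊓ y) = r.mk x ⊓ r.mk y := rfl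

theorem mk_mono (r : LCon K) {x y : K} (h : x ≤ y) : r.mk x ≤ r.mk y := by
  rw [← sup_eq_right, ← mk_sup, sup_eq_right.2 h]

instance (r : LCon K) [IsModularLattice K] : IsModularLattice (Qt r) where
  sup_inf_le_assoc_of_le := by
    intro x y z hxz
    induction x using Quotient.inductionOn with | _ x => ?_
    induction y using Quotient.inductionOn with | _ y => ?_
    induction z using Quotient.inductionOn with | _ z => ?_
    change r.mk x ≤ r.mk z at hxz
    change (r.mk x ⊔ r.mk y) ⊓ r.mk z ≤ r.mk x ⊔ r.mk y ⊓ r.mk z
    have hz : r.mk z = r.mk (x ⊔ z) := by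
      rw [mk_sup, sup_eq_right.2 hxz]
    rw [hz, ← mk_sup, ← mk_inf, ← mk_inf, ← mk_sup]
    exact mk_mono r (sup_inf_le_assoc_of_le y le_sup_left)

end LCon

/-- In a modular lattice, comparable elements with the same meet and join with a third one agree. -/
theorem mod_cancel {K : Type*} [Lattice K] [IsModularLattice K] {x y z : K} (h : x ≤ y)
    (h1 : y ⊓ z ≤ x ⊓ z) (h2 : y ⊔ z ≤ x ⊔ z) : x = y :=
  eq_of_le_of_inf_le_of_sup_le h h1 h2

end Pool.Agent.Work.MP_b103ef_al_h93
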