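import Pool.Agent.Work.MP_b103ef_al_helper93.Free
import Pool.Agent.Work.MP_b103ef_al_helper93.FreeSet
import Pool.Agent.Work.MP_b103ef_al_helper93.Quot

set_option autoImplicit false

namespace Pool.Agent.Work.MP_b103ef_al_h93

open LCon Cardinal

section

variable {X K : Type} [Lattice K]

open Classical in
/-- One step of closure under joins and meets. -/
noncomputable def cl (A : Finset K) : Finset K :=
  A ∪ (A ×ˢ A).image (fun p => p.1 ⊔ p.2) ∪ (A ×ˢ A).image (fun p => p.1 ⊓ p.2)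

theorem mem_cl {A : Finset K} {s : K} (h : s ∈ A) : s ∈ cl A := by
  classical
  unfold cl
  exact Finset.mem_union_left _ (Finset.mem_union_left _ h)

theorem sup_mem_cl {A : Finset K} {s t : K} (h : s ∈ A) (h' : t ∈ A) : s ⊔ t ∈ cl A := by
  classical
  unfold cl
  refine Finset.mem_union_left _ (Finset.mem_union_right _ (Finset.mem_image.2 ⟨(s, t), ?_, rfl⟩))
  exact Finset.mem_product.2 ⟨h, h'⟩

theorem inf_mem_cl {A : Finset K} {s t : K} (h : s ∈ A) (h' : t ∈ A) : s ⊓ t ∈ cl A := by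
  classical
  unfold cl
  refine Finset.mem_union_right _ (Finset.mem_image.2 ⟨(s, t), ?_, rfl⟩)
  exact Finset.mem_product.2 ⟨h, h'⟩

theorem cl_mono {A B : Finset K} (h : A ⊆ B) : cl A ⊆ cl B := by
  classical
  unfold cl
  exact Finset.union_subset_union (Finset.union_subset_union h
    (Finset.image_subset_image (Finset.product_subset_product h h)))
    (Finset.image_subset_image (Finset.product_subset_product h h))

variable (φ : LCon (FL X) ≃o LCon K)

open Classical in
/-- The support of all pairs made from a finite set of elements. -/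
noncomputable def SS (A : Finset K) : Finset X := (A ×ˢ A).biUnion (fun p => supp φ p.1 p.2)

theorem mem_SS {A : Finset K} {s t : K} (h : s ∈ A) (h' : t ∈ A) : supp φ s t ⊆ SS φ A := by
  classical
  unfold SS
  intro x hx
  exact Finset.mem_biUnion.2 ⟨(s, t), Finset.mem_product.2 ⟨h, h'⟩, hx⟩

theorem SS_mono {A B : Finset K} (h : A ⊆ B) : SS φ A ⊆ SS φ B := by
  classical
  unfold SS
  exact Finset.biUnion_subset_biUnion_of_subset_left _ (Finset.product_subset_product h h)

/-- A set `H` is free for the generators `ge`. -/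
def IsFree (ge : Finset X → Finset K) (H : Finset X) : Prop :=
  ∀ G ⊆ H, ∀ x ∈ H, x ∉ G → x ∉ SS φ (cl (cl (ge G)))

theorem exists_isFree (k : ℕ) (Y : Set X) (hY : aleph (k : Ordinal) ≤ #Y)
    (ge : Finset X → Finset K) (hge : ∀ G G', G ⊆ G' → ge G ⊆ ge G') :
    ∃ H : Finset X, (∀ y ∈ H, y ∈ Y) ∧ H.card = k + 1 ∧ IsFree φ ge H := by
  classical
  obtain ⟨H, h1, h2, h3⟩ := exists_free k Y hY (fun G => SS φ (cl (cl (ge G))))
  refine ⟨H, h1, h2, ?_⟩
  intro G hG x hx hxG hmem
  refine h3 x hx _ rfl ?_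
  refine SS_mono φ (cl_mono (cl_mono (hge _ _ ?_))) hmem
  intro z hz
  rw [Finset.mem_erase]
  exact ⟨fun e => hxG (e ▸ hz), hG hz⟩

end

section triple

variable {X K : Type} [Lattice K]

open Classical in
/-- The assignment `a ↦ a`, `b ↦ b`, `c ↦ c`, other generators to `o`. -/
noncomputable def hh (a b c : X) : X → N5 := fun x =>
  if x = a then N5.a else if x = b then N5.b else if x = c then N5.c else N5.o

variable {a b c : X}

theorem hh_a : hh a b c a = N5.a := by simp [hh]
theorem hh_b (hab : a ≠ b) : hh a b c b = N5.b := by simp [hh, hab.symm]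
theorem hh_c (hac : a ≠ c) (hbc : b ≠ c) : hh a b c c = N5.c := by simp [hh, hac.symm, hbc.symm]
theorem hh_na {x : X} (h : x ≠ a) : hh a b c x ≠ N5.a := by
  classical
  simp only [hh, h, if_false]
  split_ifs <;> simp
theorem hh_nb {x : X} (h : x ≠ b) : hh a b c x ≠ N5.b := by
  classical
  simp only [hh, h, if_false]
  split_ifs <;> simp
theorem hh_nc {x : X} (h : x ≠ c) : hh a b c x ≠ N5.c := by
  classical
  simp only [hh, h, if_false]
  split_ifs <;> simp

variable {φ : LCon (FL X) ≃o LCon K}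

/-- the three two-valued assignments below `hh` -/
noncomputable def hp (a b c : X) : X → N5 := fun x => N5.pi (hh a b c x)
noncomputable def hr (a b c : X) : X → N5 := fun x => N5.rho (hh a b c x)
noncomputable def ht (a b c : X) : X → N5 := fun x => N5.tau (hh a b c x)

/-- Which congruences collapse at the two-valued assignments. -/
theorem at_hp_a {s t : K} (h : (Pc φ a true).1 s t) : (Th φ (hp a b c)).1 s t :=
  Pc_le φ a true _ (by simp [hp, hh_a, N5.pi, val]) _ _ h
theorem at_hp_b (hab : a ≠ b) {s t : K} (h : (Pc φ b true).1 s t) : (Th φ (hp a b c)).1 s t :=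
  Pc_le φ b true _ (by simp [hp, hh_b hab, N5.pi, val]) _ _ h
theorem at_hp_c (hac : a ≠ c) (hbc : b ≠ c) {s t : K} (h : (Pc φ c false).1 s t) :
    (Th φ (hp a b c)).1 s t :=
  Pc_le φ c false _ (by simp [hp, hh_c hac hbc, N5.pi, val]) _ _ h
theorem at_hr_a {s t : K} (h : (Pc φ a false).1 s t) : (Th φ (hr a b c)).1 s t :=
  Pc_le φ a false _ (by simp [hr, hh_a, N5.rho, val]) _ _ h
theorem at_hr_b (hab : a ≠ b) {s t : K} (h : (Pc φ b false).1 s t) : (Th φ (hr a b c)).1 s t :=
  Pc_le φ b false _ (by simp [hr, hh_b hab, N5.rho, val]) _ _ h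
theorem at_hr_c (hac : a ≠ c) (hbc : b ≠ c) {s t : K} (h : (Pc φ c true).1 s t) :
    (Th φ (hr a b c)).1 s t :=
  Pc_le φ c true _ (by simp [hr, hh_c hac hbc, N5.rho, val]) _ _ h
theorem at_ht_a {s t : K} (h : (Pc φ a false).1 s t) : (Th φ (ht a b c)).1 s t :=
  Pc_le φ a false _ (by simp [ht, hh_a, N5.tau, val]) _ _ h
theorem at_ht_b (hab : a ≠ b) {s t : K} (h : (Pc φ b true).1 s t) : (Th φ (ht a b c)).1 s t :=
  Pc_le φ b true _ (by simp [ht, hh_b hab, N5.tau, val]) _ _ h

variable {ge : Finset X → Finset K}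

theorem lift_nb [DecidableEq X] (hfree : IsFree φ ge {a, b, c}) (hab : a ≠ b) (hbc : b ≠ c) {s t : K}
    (hs : s ∈ cl (cl (ge {a, c}))) (ht' : t ∈ cl (cl (ge {a, c})))
    (h1 : (Th φ (hp a b c)).1 s t) (h2 : (Th φ (hr a b c)).1 s t) : (Th φ (hh a b c)).1 s t := by
  refine supp_nb (fun x hx => hh_nb ?_) h1 h2
  rintro rfl
  refine hfree {a, c} ?_ x (by simp) (by simp [hab.symm, hbc]) (mem_SS φ hs ht' hx)
  intro z hz
  simp only [Finset.mem_insert, Finset.mem_singleton] at hz ⊢
  tauto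

theorem lift_na [DecidableEq X] (hfree : IsFree φ ge {a, b, c}) (hab : a ≠ b) (hac : a ≠ c) {s t : K}
    (hs : s ∈ cl (cl (ge {b, c}))) (ht' : t ∈ cl (cl (ge {b, c})))
    (h1 : (Th φ (hp a b c)).1 s t) (h2 : (Th φ (hr a b c)).1 s t) : (Th φ (hh a b c)).1 s t := by
  refine supp_na (fun x hx => hh_na ?_) h1 h2
  rintro rfl
  refine hfree {b, c} ?_ x (by simp) (by simp [hab, hac]) (mem_SS φ hs ht' hx)
  intro z hz
  simp only [Finset.mem_insert, Finset.mem_singleton] at hz ⊢
  tauto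

theorem lift_nc [DecidableEq X] (hfree : IsFree φ ge {a, b, c}) (hac : a ≠ c) (hbc : b ≠ c) {s t : K}
    (hs : s ∈ cl (cl (ge {a, b}))) (ht' : t ∈ cl (cl (ge {a, b})))
    (h1 : (Th φ (hp a b c)).1 s t) (h3 : (Th φ (ht a b c)).1 s t)
    (h2 : (Th φ (hr a b c)).1 s t) : (Th φ (hh a b c)).1 s t := by
  refine supp_nc (fun x hx => hh_nc ?_) h1 h3 h2
  rintro rfl
  refine hfree {a, b} ?_ x (by simp) (by simp [hac.symm, hbc.symm]) (mem_SS φ hs ht' hx)
  intro z hz
  simp only [Finset.mem_insert, Finset.mem_singleton] at hz ⊢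
  tauto

theorem down_nc [DecidableEq X] (hfree : IsFree φ ge {a, b, c}) (hac : a ≠ c) (hbc : b ≠ c) {s t : K}
    (hs : s ∈ cl (cl (ge {a, b}))) (ht' : t ∈ cl (cl (ge {a, b})))
    (h : (Th φ (hh a b c)).1 s t) : (Th φ (ht a b c)).1 s t := by
  refine supp_tau (fun x hx => hh_nc ?_) h
  rintro rfl
  refine hfree {a, b} ?_ x (by simp) (by simp [hac.symm, hbc.symm]) (mem_SS φ hs ht' hx)
  intro z hz
  simp only [Finset.mem_insert, Finset.mem_singleton] at hz ⊢
  tauto

end triple

end Pool.Agent.Work.MP_b103ef_al_h93
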