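import Pool.Agent.Work.MP_b103ef_al_helper93.Setup

set_option autoImplicit false

namespace Pool.Agent.Work.MP_b103ef_al_h93

open LCon Cardinal

/-- The lattice part: three three-step chains with the pairwise relations of the pentagon. -/
theorem three_bot {Q : Type*} [Lattice Q] [IsModularLattice Q] {u a1 a2 b1 b2 c1 c2 : Q}
    (ha : a1 ≤ a2)
    (h1 : c1 ≤ a2) (h2 : c1 ≤ b2)
    (h3 : a1 ⊔ c1 = a2 ⊓ c2) (h4 : b1 ⊔ c1 = b2 ⊓ c2) (h5 : a1 ⊓ b2 = a1 ⊓ b1)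
    (h6 : b1 ⊓ c1 = u) (hu : u ≤ a1 ⊓ b1 ⊓ c1) : a1 ⊓ b1 = a2 ⊓ b1 := by
  apply mod_cancel (z := c1)
  · exact inf_le_inf_right _ ha
  · calc a2 ⊓ b1 ⊓ c1 ≤ b1 ⊓ c1 := inf_le_inf_right _ inf_le_right
      _ = u := h6
      _ ≤ a1 ⊓ b1 ⊓ c1 := hu
  · have e1 : a2 ⊓ b1 ⊔ c1 = a2 ⊓ (b1 ⊔ c1) := by
      rw [inf_sup_assoc_of_le b1 h1]
    have e2 : a1 ⊓ b2 ⊔ c1 = (a1 ⊔ c1) ⊓ b2 := by
      rw [inf_comm a1 b2, inf_sup_assoc_of_le a1 h2, inf_comm]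
    rw [e1, h4, ← h5, e2, h3]
    exact le_of_eq (by ac_rfl)

theorem three_top {Q : Type*} [Lattice Q] [IsModularLattice Q] {v a1 a2 b1 b2 c1 c2 : Q}
    (ha : a1 ≤ a2)
    (h1 : a1 ≤ c2) (h2 : b1 ≤ c2)
    (h3 : a1 ⊔ c1 = a2 ⊓ c2) (h4 : b1 ⊔ c1 = b2 ⊓ c2) (h5 : a2 ⊔ b2 = a2 ⊔ b1)
    (h6 : b2 ⊔ c2 = v) (hv : b2 ⊔ a2 ⊔ c2 ≤ v) : b2 ⊔ a1 = b2 ⊔ a2 := by
  apply mod_cancel (z := c2)
  · exact sup_le_sup_left ha _
  · have e1 : (b2 ⊔ a1) ⊓ c2 = b2 ⊓ c2 ⊔ a1 := by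
      rw [inf_comm, sup_comm b2 a1]
      rw [inf_comm, sup_inf_assoc_of_le b2 h1, sup_comm]
    have e2 : (a2 ⊔ b1) ⊓ c2 = a2 ⊓ c2 ⊔ b1 := by
      rw [sup_comm a2 b1, sup_inf_assoc_of_le a2 h2, sup_comm]
    rw [e1, sup_comm b2 a2, h5, e2, ← h3, ← h4]
    exact le_of_eq (by ac_rfl)
  · calc b2 ⊔ a2 ⊔ c2 ≤ v := hv
      _ = b2 ⊔ c2 := h6.symm
      _ ≤ b2 ⊔ a1 ⊔ c2 := sup_le_sup_right le_sup_left _

section

variable {K : Type} [Lattice K] [IsModularLattice K]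

theorem three_abs {T P R W : LCon K} {u v a1 a2 b1 b2 c1 c2 : K} {Gac Gbc Gab : Finset K}
    (ma1 : u ≤ a1) (ma2 : a1 ≤ a2) (ma3 : a2 ≤ v)
    (mb1 : u ≤ b1) (mb2 : b1 ≤ b2) (mb3 : b2 ≤ v)
    (mc1 : u ≤ c1) (mc2 : c1 ≤ c2) (mc3 : c2 ≤ v)
    (pa : P.1 a1 a2) (pb : P.1 b1 b2) (pc1 : P.1 u c1) (pc2 : P.1 c2 v)
    (ra1 : R.1 u a1) (ra2 : R.1 a2 v) (rb1 : R.1 u b1) (rb2 : R.1 b2 v) (rc : R.1 c1 c2)
    (ta1 : W.1 u a1) (ta2 : W.1 a2 v) (tb : W.1 b1 b2)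
    (a1c : a1 ∈ Gac) (a2c : a2 ∈ Gac) (c1c : c1 ∈ Gac) (c2c : c2 ∈ Gac)
    (b1c : b1 ∈ Gbc) (b2c : b2 ∈ Gbc) (c1d : c1 ∈ Gbc) (c2d : c2 ∈ Gbc) (ud : u ∈ Gbc) (vd : v ∈ Gbc)
    (a1b : a1 ∈ Gab) (a2b : a2 ∈ Gab) (b1b : b1 ∈ Gab) (b2b : b2 ∈ Gab)
    (lac : ∀ s ∈ cl (cl Gac), ∀ t ∈ cl (cl Gac), P.1 s t → R.1 s t → T.1 s t)
    (lbc : ∀ s ∈ cl (cl Gbc), ∀ t ∈ cl (cl Gbc), P.1 s t → R.1 s t → T.1 s t)
    (lab : ∀ s ∈ cl (cl Gab), ∀ t ∈ cl (cl Gab), P.1 s t → W.1 s t → R.1 s t → T.1 s t)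
    (dab : ∀ s ∈ cl (cl Gab), ∀ t ∈ cl (cl Gab), T.1 s t → W.1 s t) : W.1 u v := by
  have Pa := P.mk_eq.2 pa
  have Pb := P.mk_eq.2 pb
  have Pc1 := P.mk_eq.2 pc1
  have Pc2 := P.mk_eq.2 pc2
  have Ra1 := R.mk_eq.2 ra1
  have Ra2 := R.mk_eq.2 ra2
  have Rb1 := R.mk_eq.2 rb1
  have Rb2 := R.mk_eq.2 rb2
  have Rc := R.mk_eq.2 rc
  have Wa1 := W.mk_eq.2 ta1
  have Wa2 := W.mk_eq.2 ta2
  have Wb := W.mk_eq.2 tb
  have A1 : ∀ r : LCon K, r.mk u ≤ r.mk a1 := fun r => mk_mono r ma1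
  have A2 : ∀ r : LCon K, r.mk a1 ≤ r.mk a2 := fun r => mk_mono r ma2
  have A3 : ∀ r : LCon K, r.mk a2 ≤ r.mk v := fun r => mk_mono r ma3
  have B1 : ∀ r : LCon K, r.mk u ≤ r.mk b1 := fun r => mk_mono r mb1
  have B2 : ∀ r : LCon K, r.mk b1 ≤ r.mk b2 := fun r => mk_mono r mb2
  have B3 : ∀ r : LCon K, r.mk b2 ≤ r.mk v := fun r => mk_mono r mb3
  have C1 : ∀ r : LCon K, r.mk u ≤ r.mk c1 := fun r => mk_mono r mc1
  have C2 : ∀ r : LCon K, r.mk c1 ≤ r.mk c2 := fun r => mk_mono r mc2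
  have C3 : ∀ r : LCon K, r.mk c2 ≤ r.mk v := fun r => mk_mono r mc3
  -- relations in the quotient by `T`
  have r1 : T.mk (c1 ⊔ a2) = T.mk a2 := T.mk_eq.2 (lac _
    (mem_cl (sup_mem_cl c1c a2c)) _ (mem_cl (mem_cl a2c))
    (P.mk_eq.1 (by rw [mk_sup, ← Pc1]; exact sup_eq_right.2 ((A1 P).trans (A2 P))))
    (R.mk_eq.1 (by rw [mk_sup, Ra2]; exact sup_eq_right.2 ((C2 R).trans (C3 R)))))
  have r2 : T.mk (c1 ⊔ b2) = T.mk b2 := T.mk_eq.2 (lbc _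
    (mem_cl (sup_mem_cl c1d b2c)) _ (mem_cl (mem_cl b2c))
    (P.mk_eq.1 (by rw [mk_sup, ← Pc1]; exact sup_eq_right.2 ((B1 P).trans (B2 P))))
    (R.mk_eq.1 (by rw [mk_sup, Rb2]; exact sup_eq_right.2 ((C2 R).trans (C3 R)))))
  have r3 : T.mk (a1 ⊔ c1) = T.mk (a2 ⊓ c2) := T.mk_eq.2 (lac _
    (mem_cl (sup_mem_cl a1c c1c)) _
    (mem_cl (inf_mem_cl a2c c2c))
    (P.mk_eq.1 (by
      rw [mk_sup, mk_inf, ← Pc1, Pc2, ← Pa, sup_eq_left.2 (A1 P), inf_eq_left.2 ((A2 P).trans (A3 P))]))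
    (R.mk_eq.1 (by
      rw [mk_sup, mk_inf, ← Ra1, Ra2, ← Rc, sup_eq_right.2 (C1 R), inf_eq_right.2 ((C2 R).trans (C3 R))])))
  have r4 : T.mk (b1 ⊔ c1) = T.mk (b2 ⊓ c2) := T.mk_eq.2 (lbc _
    (mem_cl (sup_mem_cl b1c c1d)) _
    (mem_cl (inf_mem_cl b2c c2d))
    (P.mk_eq.1 (by
      rw [mk_sup, mk_inf, ← Pc1, Pc2, ← Pb, sup_eq_left.2 (B1 P), inf_eq_left.2 ((B2 P).trans (B3 P))]))
    (R.mk_eq.1 (by
      rw [mk_sup, mk_inf, ← Rb1, Rb2, ← Rc, sup_eq_right.2 (C1 R), inf_eq_right.2 ((C2 R).trans (C3 R))])))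
  have r5 : T.mk (a1 ⊓ b2) = T.mk (a1 ⊓ b1) := T.mk_eq.2 (lab _
    (mem_cl (inf_mem_cl a1b b2b)) _
    (mem_cl (inf_mem_cl a1b b1b))
    (P.mk_eq.1 (by rw [mk_inf, mk_inf, ← Pb]))
    (W.mk_eq.1 (by rw [mk_inf, mk_inf, ← Wb]))
    (R.mk_eq.1 (by rw [mk_inf, mk_inf, ← Ra1, inf_eq_left.2 (B1 R), inf_eq_left.2 ((B1 R).trans (B2 R))])))
  have r6 : T.mk (b1 ⊓ c1) = T.mk u := T.mk_eq.2 (lbc _
    (mem_cl (inf_mem_cl b1c c1d)) _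
    (mem_cl (mem_cl ud))
    (P.mk_eq.1 (by rw [mk_inf, ← Pc1]; exact inf_eq_right.2 (B1 P)))
    (R.mk_eq.1 (by rw [mk_inf, ← Rb1]; exact inf_eq_left.2 (C1 R))))
  have r7 : T.mk (a1 ⊔ c2) = T.mk c2 := T.mk_eq.2 (lac _
    (mem_cl (sup_mem_cl a1c c2c)) _ (mem_cl (mem_cl c2c))
    (P.mk_eq.1 (by rw [mk_sup, Pc2]; exact sup_eq_right.2 ((A2 P).trans (A3 P))))
    (R.mk_eq.1 (by rw [mk_sup, ← Ra1]; exact sup_eq_right.2 ((C1 R).trans (C2 R)))))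
  have r8 : T.mk (b1 ⊔ c2) = T.mk c2 := T.mk_eq.2 (lbc _
    (mem_cl (sup_mem_cl b1c c2d)) _ (mem_cl (mem_cl c2d))
    (P.mk_eq.1 (by rw [mk_sup, Pc2]; exact sup_eq_right.2 ((B2 P).trans (B3 P))))
    (R.mk_eq.1 (by rw [mk_sup, ← Rb1]; exact sup_eq_right.2 ((C1 R).trans (C2 R)))))
  have r9 : T.mk (a2 ⊔ b2) = T.mk (a2 ⊔ b1) := T.mk_eq.2 (lab _
    (mem_cl (sup_mem_cl a2b b2b)) _
    (mem_cl (sup_mem_cl a2b b1b))
    (P.mk_eq.1 (by rw [mk_sup, mk_sup, ← Pb]))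
    (W.mk_eq.1 (by rw [mk_sup, mk_sup, ← Wb]))
    (R.mk_eq.1 (by
      rw [mk_sup, mk_sup, Ra2, sup_eq_left.2 (B3 R), sup_eq_left.2 ((B2 R).trans (B3 R))])))
  have r10 : T.mk (b2 ⊔ c2) = T.mk v := T.mk_eq.2 (lbc _
    (mem_cl (sup_mem_cl b2c c2d)) _
    (mem_cl (mem_cl vd))
    (P.mk_eq.1 (by rw [mk_sup, Pc2]; exact sup_eq_right.2 (B3 P)))
    (R.mk_eq.1 (by rw [mk_sup, Rb2]; exact sup_eq_left.2 (C3 R))))
  simp only [mk_sup, mk_inf] at r1 r2 r3 r4 r5 r6 r7 r8 r9 r10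
  have k1 := three_bot (A2 T) (sup_eq_right.1 r1) (sup_eq_right.1 r2) r3 r4 r5 r6
    (le_inf (le_inf (A1 T) (B1 T)) (C1 T))
  have k2 := three_top (A2 T) (sup_eq_right.1 r7) (sup_eq_right.1 r8) r3 r4 r9 r10
    (sup_le (sup_le (B3 T) (A3 T)) (C3 T))
  -- go down to the assignment `b ↦ i`, `a ↦ o`
  have q1 := dab _
    (mem_cl (inf_mem_cl a1b b1b)) _
    (mem_cl (inf_mem_cl a2b b1b))
    (T.mk_eq.1 (by rw [mk_inf, mk_inf]; exact k1))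
  have q2 := dab _
    (mem_cl (sup_mem_cl b2b a1b)) _
    (mem_cl (sup_mem_cl b2b a2b))
    (T.mk_eq.1 (by rw [mk_sup, mk_sup]; exact k2))
  have q1' := W.mk_eq.2 q1
  have q2' := W.mk_eq.2 q2
  rw [mk_inf, mk_inf, ← Wa1, Wa2, inf_eq_left.2 (B1 W), inf_eq_right.2 ((B2 W).trans (B3 W))] at q1'
  rw [mk_sup, mk_sup, ← Wa1, Wa2, sup_eq_left.2 ((B1 W).trans (B2 W)), sup_eq_right.2 (B3 W)] at q2'
  have : W.mk u = W.mk v := by rw [q1', Wb, q2']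
  exact W.mk_eq.1 this

variable {X : Type} (φ : LCon (FL X) ≃o LCon K)

/-- Three-step chains of one pattern for `ℵ₂` generators are impossible. -/
theorem no_three_step (Y : Set X) (hX : aleph ((2 : ℕ) : Ordinal) ≤ #Y) {u v : K}
    (huv : ∀ ψ : LCon K, ψ.1 u v → ∀ s t, ψ.1 s t) (κ : Bool)
    (y1 y2 : X → K) (m1 : ∀ x ∈ Y, u ≤ y1 x) (m2 : ∀ x ∈ Y, y1 x ≤ y2 x) (m3 : ∀ x ∈ Y, y2 x ≤ v)
    (s1 : ∀ x ∈ Y, (Pc φ x κ).1 u (y1 x)) (s2 : ∀ x ∈ Y, (Pc φ x (!κ)).1 (y1 x) (y2 x))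
    (s3 : ∀ x ∈ Y, (Pc φ x κ).1 (y2 x) v) : False := by
  classical
  let ge : Finset X → Finset K := fun G => {u, v} ∪ G.image y1 ∪ G.image y2
  have hge : ∀ G G', G ⊆ G' → ge G ⊆ ge G' := by
    intro G G' h
    exact Finset.union_subset_union (Finset.union_subset_union (le_refl _)
      (Finset.image_subset_image h)) (Finset.image_subset_image h)
  obtain ⟨H, hHY, hcard, hfree⟩ := exists_isFree φ 2 Y hX ge hge
  obtain ⟨a, b, c, hab, hac, hbc, rfl⟩ := Finset.card_eq_three.1 hcard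
  have Ya : a ∈ Y := hHY a (by simp)
  have Yb : b ∈ Y := hHY b (by simp)
  have Yc : c ∈ Y := hHY c (by simp)
  have gu : ∀ G, u ∈ ge G := fun G => by simp [ge]
  have gv : ∀ G, v ∈ ge G := fun G => by simp [ge]
  have g1 : ∀ G x, x ∈ G → y1 x ∈ ge G := fun G x h => by
    simp only [ge, Finset.mem_union, Finset.mem_image]
    exact Or.inl (Or.inr ⟨x, h, rfl⟩)
  have g2 : ∀ G x, x ∈ G → y2 x ∈ ge G := fun G x h => by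
    simp only [ge, Finset.mem_union, Finset.mem_image]
    exact Or.inr ⟨x, h, rfl⟩
  apply not_Th_of φ huv (ht a b c)
  cases κ
  · exact three_abs (T := Th φ (hh a b c)) (P := Th φ (hp a b c)) (R := Th φ (hr a b c))
      (Gac := ge {a, c}) (Gbc := ge {b, c}) (Gab := ge {a, b})
      (m1 a Ya) (m2 a Ya) (m3 a Ya) (m1 b Yb) (m2 b Yb) (m3 b Yb) (m1 c Yc) (m2 c Yc) (m3 c Yc)
      (at_hp_a (s2 a Ya)) (at_hp_b hab (s2 b Yb)) (at_hp_c hac hbc (s1 c Yc))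
      (at_hp_c hac hbc (s3 c Yc))
      (at_hr_a (s1 a Ya)) (at_hr_a (s3 a Ya)) (at_hr_b hab (s1 b Yb)) (at_hr_b hab (s3 b Yb))
      (at_hr_c hac hbc (s2 c Yc))
      (at_ht_a (s1 a Ya)) (at_ht_a (s3 a Ya)) (at_ht_b hab (s2 b Yb))
      (g1 _ _ (by simp)) (g2 _ _ (by simp)) (g1 _ _ (by simp)) (g2 _ _ (by simp))
      (g1 _ _ (by simp)) (g2 _ _ (by simp)) (g1 _ _ (by simp)) (g2 _ _ (by simp)) (gu _) (gv _)
      (g1 _ _ (by simp)) (g2 _ _ (by simp)) (g1 _ _ (by simp)) (g2 _ _ (by simp))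
      (fun s hs t ht' h1 h2 => lift_nb hfree hab hbc hs ht' h1 h2)
      (fun s hs t ht' h1 h2 => lift_na hfree hab hac hs ht' h1 h2)
      (fun s hs t ht' h1 h3 h2 => lift_nc hfree hac hbc hs ht' h1 h3 h2)
      (fun s hs t ht' h => down_nc hfree hac hbc hs ht' h)
  · exact three_abs (T := Th φ (hh a b c)) (P := Th φ (hr a b c)) (R := Th φ (hp a b c))
      (Gac := ge {b, c}) (Gbc := ge {a, c}) (Gab := ge {a, b})
      (m1 b Yb) (m2 b Yb) (m3 b Yb) (m1 a Ya) (m2 a Ya) (m3 a Ya) (m1 c Yc) (m2 c Yc) (m3 c Yc)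
      (at_hr_b hab (s2 b Yb)) (at_hr_a (s2 a Ya)) (at_hr_c hac hbc (s1 c Yc))
      (at_hr_c hac hbc (s3 c Yc))
      (at_hp_b hab (s1 b Yb)) (at_hp_b hab (s3 b Yb)) (at_hp_a (s1 a Ya)) (at_hp_a (s3 a Ya))
      (at_hp_c hac hbc (s2 c Yc))
      (at_ht_b hab (s1 b Yb)) (at_ht_b hab (s3 b Yb)) (at_ht_a (s2 a Ya))
      (g1 _ _ (by simp)) (g2 _ _ (by simp)) (g1 _ _ (by simp)) (g2 _ _ (by simp))
      (g1 _ _ (by simp)) (g2 _ _ (by simp)) (g1 _ _ (by simp)) (g2 _ _ (by simp)) (gu _) (gv _)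
      (g1 _ _ (by simp)) (g2 _ _ (by simp)) (g1 _ _ (by simp)) (g2 _ _ (by simp))
      (fun s hs t ht' h1 h2 => lift_na hfree hab hac hs ht' h2 h1)
      (fun s hs t ht' h1 h2 => lift_nb hfree hab hbc hs ht' h2 h1)
      (fun s hs t ht' h1 h3 h2 => lift_nc hfree hac hbc hs ht' h2 h3 h1)
      (fun s hs t ht' h => down_nc hfree hac hbc hs ht' h)

include φ in
/-- Some pair in the join of two congruences of `K` is in neither of the two triple products. -/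
theorem not_three_perm (hX : aleph ((2 : ℕ) : Ordinal) ≤ #X) :
    ∃ (ψ ψ' : LCon K) (s t : K), (∀ η : LCon K, ψ ≤ η → ψ' ≤ η → η.1 s t) ∧
      (¬ ∃ y z, ψ.1 s y ∧ ψ'.1 y z ∧ ψ.1 z t) ∧ ¬ ∃ y z, ψ'.1 s y ∧ ψ.1 y z ∧ ψ'.1 z t := by
  classical
  by_contra hcon
  push Not at hcon
  obtain ⟨u, v, huv', huv⟩ := exists_uv φ
  have hJ : ∀ (x : X) (κ : Bool) (η : LCon K), Pc φ x κ ≤ η → Pc φ x (!κ) ≤ η → η.1 u v := by
    intro x κ η h0 h1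
    cases κ
    · exact Pc_join φ x η h0 h1 u v
    · exact Pc_join φ x η h1 h0 u v
  have hmk : ∀ (x : X) (κ : Bool), (∃ y z, (Pc φ x κ).1 u y ∧ (Pc φ x (!κ)).1 y z ∧ (Pc φ x κ).1 z v) →
      ∃ y1 y2 : K, u ≤ y1 ∧ y1 ≤ y2 ∧ y2 ≤ v ∧ (Pc φ x κ).1 u y1 ∧
      (Pc φ x (!κ)).1 y1 y2 ∧ (Pc φ x κ).1 y2 v := by
    intro x κ h
    obtain ⟨y, z, h1, h2, h3⟩ := h
    refine ⟨(y ⊔ u) ⊓ v, ((y ⊔ z) ⊔ u) ⊓ v, le_inf le_sup_right huv',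
      inf_le_inf_right _ (sup_le_sup_right le_sup_left _), inf_le_right, ?_, ?_, ?_⟩
    · have e := (Pc φ x κ).inf_right v ((Pc φ x κ).sup_right u h1)
      rwa [sup_idem, inf_eq_left.2 huv'] at e
    · have e := (Pc φ x (!κ)).inf_right v ((Pc φ x (!κ)).sup_right u ((Pc φ x (!κ)).sup_left y h2))
      rwa [sup_idem] at e
    · have e := (Pc φ x κ).inf_right v ((Pc φ x κ).sup_right u ((Pc φ x κ).sup_left y h3))
      have e2 : (y ⊔ v ⊔ u) ⊓ v = v := inf_eq_right.2 (le_sup_of_le_left le_sup_right)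
      rwa [e2] at e
  have h : ∀ x : X, ∃ (κ : Bool) (y1 y2 : K), u ≤ y1 ∧ y1 ≤ y2 ∧ y2 ≤ v ∧ (Pc φ x κ).1 u y1 ∧
      (Pc φ x (!κ)).1 y1 y2 ∧ (Pc φ x κ).1 y2 v := by
    intro x
    by_cases h0 : ∃ y z, (Pc φ x false).1 u y ∧ (Pc φ x true).1 y z ∧ (Pc φ x false).1 z v
    · exact ⟨false, hmk x false h0⟩
    · have h1 := hcon (Pc φ x false) (Pc φ x true) u v (fun η a b => hJ x false η a b)
        (fun y z h2 h3 h4 => h0 ⟨y, z, h2, h3, h4⟩)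
      exact ⟨true, hmk x true h1⟩
  choose κ y1 y2 m1 m2 m3 s1 s2 s3 using h
  have hcls : ∃ b : Bool, aleph ((2 : ℕ) : Ordinal) ≤ #({x | κ x = b} : Set X) := by
    by_contra hcon2
    push Not at hcon2
    have hcov : (Set.univ : Set X) ⊆ ({x | κ x = true} ∪ {x | κ x = false}) := by
      intro x _
      cases hb : κ x
      · exact Or.inr hb
      · exact Or.inl hb
    have h4 : #X ≤ #(({x | κ x = true} ∪ {x | κ x = false}) : Set X) := by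
      rw [← Cardinal.mk_univ (α := X)]
      exact Cardinal.mk_le_mk_of_subset hcov
    have h5 : #(({x | κ x = true} ∪ {x | κ x = false}) : Set X) < aleph ((2 : ℕ) : Ordinal) := by
      refine lt_of_le_of_lt (Cardinal.mk_union_le _ _) ?_
      exact Cardinal.add_lt_of_lt (aleph0_le_aleph _) (hcon2 true) (hcon2 false)
    exact absurd (lt_of_le_of_lt h4 h5) (not_lt.2 hX)
  obtain ⟨b, hb⟩ := hcls
  refine no_three_step φ {x | κ x = b} hb huv b y1 y2 (fun x _ => m1 x) (fun x _ => m2 x)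
    (fun x _ => m3 x) (fun x hx => ?_) (fun x hx => ?_) (fun x hx => ?_)
  · have h1 := s1 x
    change κ x = b at hx
    rwa [hx] at h1
  · have h1 := s2 x
    change κ x = b at hx
    rwa [hx] at h1
  · have h1 := s3 x
    change κ x = b at hx
    rwa [hx] at h1

end

end Pool.Agent.Work.MP_b103ef_al_h93
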